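import Pool.Agent.Lib_helper47.Deg.Homotopy

/-! # Degree library, part 6: regular zeros -/

set_option autoImplicit false

open MeasureTheory Set Metric Filter Topology Asymptotics

namespace Pool.Agent.Deg47

variable {E : Type*} [NormedAddCommGroup E] [NormedSpace ℝ E] [FiniteDimensional ℝ E]

omit [FiniteDimensional ℝ E] in
theorem det_comp' (A B : E →L[ℝ] E) : (A.comp B).det = A.det * B.det := by
  unfold ContinuousLinearMap.det
  exact LinearMap.det_comp (A : E →ₗ[ℝ] E) (B : E →ₗ[ℝ] E)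

/-- Lower bound for an invertible linear map. -/
theorem exists_lower_bound_linear (A : E →L[ℝ] E) (hA : A.det ≠ 0) :
    ∃ c > 0, ∀ v, c * ‖v‖ ≤ ‖A v‖ := by
  have h := (equivOfDet A hA).antilipschitz
  obtain ⟨C, hC⟩ : ∃ C : NNReal, AntilipschitzWith C (equivOfDet A hA) := ⟨_, h⟩
  refine ⟨1 / ((C : ℝ) + 1), by positivity, fun v => ?_⟩
  have h1 := hC.le_mul_dist v 0
  rw [map_zero, dist_zero_right, dist_zero_right] at h1
  have h2 : (equivOfDet A hA) v = A v := rfl
  rw [h2] at h1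
  rw [div_mul_eq_mul_div, one_mul, div_le_iff₀ (by positivity)]
  nlinarith [norm_nonneg (A v)]

/-- Degree of an affine isomorphism. -/
theorem deg_affine (A : E →L[ℝ] E) (hA : A.det ≠ 0) {x₀ : E} {U : Set E} (hU : IsOpen U)
    (hx : x₀ ∈ U) : deg (fun x => A (x - x₀)) U = (SignType.sign A.det : ℤ) := by
  obtain ⟨r, hr, hrU⟩ := Metric.nhds_basis_closedBall.mem_iff.1 (hU.mem_nhds hx)
  have hcont : ContDiff ℝ 1 (fun x : E => A (x - x₀)) :=
    A.contDiff.comp (contDiff_id.sub contDiff_const)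
  have hzero : ∀ x, A (x - x₀) = 0 ↔ x = x₀ := by
    intro x
    constructor
    · intro h
      have := (det_ne_zero_iff.1 hA) (h.trans (map_zero A).symm)
      exact sub_eq_zero.1 this
    · rintro rfl; rw [sub_self, map_zero]
  have hfd : ∀ x, fderiv ℝ (fun x : E => A (x - x₀)) x = A := by
    intro x
    have : HasFDerivAt (fun x : E => A (x - x₀)) (A.comp (ContinuousLinearMap.id ℝ E)) x :=
      A.hasFDerivAt.comp x ((hasFDerivAt_id x).sub_const x₀)
    rw [this.fderiv]; rfl
  have hK : IsCompact (closedBall x₀ r) := isCompact_closedBall x₀ r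
  have hadm : Adm (fun x : E => A (x - x₀)) U :=
    Adm.of_subset_compact hU hcont.continuous.continuousOn hK hrU (fun x _ h0 => by
      rw [(hzero x).1 h0]; exact mem_closedBall_self hr.le)
  refine deg_eq_of_isDeg hadm ⟨closedBall x₀ r, _, hK, hrU, fun x _ h0 => ?_, hcont,
    fun x hx' => ?_, fun x _ _ => ?_, ?_⟩
  · rw [(hzero x).1 h0, interior_closedBall _ hr.ne']; exact mem_ball_self hr
  · rw [sub_self, norm_zero, norm_pos_iff]
    intro h0
    rw [(hzero x).1 h0, frontier_closedBall _ hr.ne', mem_sphere, dist_self] at hx'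
    exact hr.ne hx'
  · rw [hfd]; exact hA
  · unfold cnt
    have : closedBall x₀ r ∩ (fun x : E => A (x - x₀)) ⁻¹' {0} = {x₀} := by
      ext x
      simp only [mem_inter_iff, mem_preimage, mem_singleton_iff]
      constructor
      · rintro ⟨_, h⟩; exact (hzero x).1 h
      · rintro rfl; exact ⟨mem_closedBall_self hr.le, (hzero _).2 rfl⟩
    rw [this, finsum_mem_singleton]
    unfold sgnDet
    rw [hfd]

/-- Degree at an isolated nondegenerate zero. -/
theorem deg_of_hasFDerivAt {f : E → E} {U : Set E} {x₀ : E} {A : E →L[ℝ] E} (hU : IsOpen U)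
    (hf : ContinuousOn f U) (hx : x₀ ∈ U) (h0 : f x₀ = 0) (huniq : ∀ x ∈ U, f x = 0 → x = x₀)
    (hd : HasFDerivAt f A x₀) (hdet : A.det ≠ 0) :
    deg f U = (SignType.sign A.det : ℤ) := by
  obtain ⟨c, hc, hcb⟩ := exists_lower_bound_linear A hdet
  have hlit := hd.isLittleO.def (half_pos hc)
  obtain ⟨r, hr, hrU⟩ := Metric.nhds_basis_closedBall.mem_iff.1
    (inter_mem (hU.mem_nhds hx) hlit)
  have hK : IsCompact (closedBall x₀ r) := isCompact_closedBall x₀ r
  have hKU : closedBall x₀ r ⊆ U := fun x hx' => (hrU hx').1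
  rw [← deg_affine A hdet hU hx]
  have hadm : Adm f U := Adm.of_subset_compact hU hf hK hKU (fun x hx' h => by
    rw [huniq x hx' h]; exact mem_closedBall_self hr.le)
  have hzero : ∀ x, A (x - x₀) = 0 → x = x₀ := by
    intro x h
    exact sub_eq_zero.1 ((det_ne_zero_iff.1 hdet) (h.trans (map_zero A).symm))
  have hadm' : Adm (fun x => A (x - x₀)) U :=
    Adm.of_subset_compact hU (by fun_prop) hK hKU (fun x hx' h => by
      rw [hzero x h]; exact mem_closedBall_self hr.le)
  refine deg_eq_of_segment hadm hadm' hK hKU (fun x hx' h => ?_) (fun x hx' h => ?_) ?_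
  · rw [huniq x hx' h, interior_closedBall _ hr.ne']; exact mem_ball_self hr
  · rw [hzero x h, interior_closedBall _ hr.ne']; exact mem_ball_self hr
  · intro x hx' s hs hcon
    have hxK : x ∈ closedBall x₀ r := hK.isClosed.frontier_subset hx'
    rw [frontier_closedBall _ hr.ne', mem_sphere, dist_eq_norm] at hx'
    have h1 : ‖f x - f x₀ - A (x - x₀)‖ ≤ c / 2 * ‖x - x₀‖ := (hrU hxK).2
    rw [h0, sub_zero] at h1
    have h2 := hcb (x - x₀)
    have h3 : A (x - x₀) = -((1 - s) • (f x - A (x - x₀))) := by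
      rw [smul_sub]
      have : (1 - s) • f x = - (s • A (x - x₀)) := eq_neg_of_add_eq_zero_left hcon
      rw [this, sub_smul, one_smul]; abel
    rw [h3, norm_neg, norm_smul, Real.norm_of_nonneg (sub_nonneg.2 hs.2)] at h2
    have h4 : (1 - s) * ‖f x - A (x - x₀)‖ ≤ 1 * (c / 2 * ‖x - x₀‖) := by
      gcongr
      · linarith [hs.1]
    rw [hx'] at h2 h4
    have : 0 < c * r := mul_pos hc hr
    linarith

/-- Degree as a sum of signs over finitely many nondegenerate zeros. -/
theorem deg_eq_sum_sign {f : E → E} {U : Set E} (hU : IsOpen U) (hf : ContinuousOn f U)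
    (Z : Finset E) (hZU : ∀ x ∈ Z, x ∈ U) (hZ0 : ∀ x ∈ Z, f x = 0)
    (hz : ∀ x ∈ U, f x = 0 → x ∈ Z) (A : E → E →L[ℝ] E)
    (hd : ∀ x ∈ Z, HasFDerivAt f (A x) x) (hdet : ∀ x ∈ Z, (A x).det ≠ 0) :
    deg f U = ∑ x ∈ Z, (SignType.sign (A x).det : ℤ) := by
  obtain ⟨V, hV, hVd⟩ := (Z.finite_toSet).t2_separation
  have hadm : Adm f U := Adm.of_subset_compact hU hf (Z.finite_toSet.isCompact) hZU
    (fun x hx h0 => by exact_mod_cast hz x hx h0)
  rw [deg_eq_sum hadm Z (fun x => V x ∩ U) (fun x _ => (hV x).2.inter hU)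
    (fun x _ => inter_subset_right)
    (hVd.mono_on (fun x _ => inter_subset_left)) (fun x hx h0 => ⟨x, hz x hx h0, (hV x).1, hx⟩)]
  refine Finset.sum_congr rfl (fun x hx => ?_)
  refine deg_of_hasFDerivAt ((hV x).2.inter hU) (hf.mono inter_subset_right)
    ⟨(hV x).1, hZU x hx⟩ (hZ0 x hx) (fun y hy h0 => ?_) (hd x hx) (hdet x hx)
  have hyZ := hz y hy.2 h0
  by_contra hne
  have hdis := hVd (Finset.mem_coe.2 hyZ) (Finset.mem_coe.2 hx) hne
  exact (disjoint_left.1 hdis) (hV y).1 hy.1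

/-- A convenient approximation: regular zeros, close to `f` off a compact set. -/
theorem exists_approx_nice {f : E → E} {U : Set E} (h : Adm f U) :
    ∃ (K U' : Set E) (g : E → E), IsCompact K ∧ IsOpen U' ∧ K ⊆ U' ∧ U' ⊆ U ∧
      (∀ x ∈ U, f x = 0 → x ∈ interior K) ∧ ContDiff ℝ 1 g ∧
      (∀ x, g x = 0 → (fderiv ℝ g x).det ≠ 0) ∧
      (∀ x ∈ U' \ interior K, ‖g x - f x‖ < ‖f x‖) ∧
      (∀ x ∈ U', g x = 0 → x ∈ interior K) := by
  obtain ⟨K, hK, hZK, hKU⟩ := exists_compact_between h.comp h.isOpen inter_subset_left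
  obtain ⟨K₂, hK₂, hKK₂, hK₂U⟩ := exists_compact_between hK h.isOpen hKU
  obtain ⟨δ, hδ, hδb⟩ := exists_lower_bound (hK₂.diff isOpen_interior)
    (h.cont.mono (sdiff_subset.trans hK₂U)) (f := f) (C := K₂ \ interior K) (by
    intro x hx h0
    exact hx.2 (hZK ⟨hK₂U hx.1, h0⟩))
  obtain ⟨g, hg, hgf, hgr⟩ := exists_approx hK₂ (h.cont.mono hK₂U) hδ
  have hclose : ∀ x ∈ interior K₂ \ interior K, ‖g x - f x‖ < ‖f x‖ := by
    intro x hx
    exact lt_of_lt_of_le (hgf x (interior_subset hx.1)) (hδb x ⟨interior_subset hx.1, hx.2⟩)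
  refine ⟨K, interior K₂, g, hK, isOpen_interior, hKK₂, interior_subset.trans hK₂U,
    fun x hx h0 => hZK ⟨hx, h0⟩, hg, hgr, hclose, fun x hx h0 => ?_⟩
  by_contra hcon
  have := hclose x ⟨hx, hcon⟩
  rw [h0, zero_sub, norm_neg] at this
  exact lt_irrefl _ this

/-- Multiplication by a continuous family of invertible linear maps. -/
theorem deg_mul {f : E → E} {M : E → E →L[ℝ] E} {U : Set E} (h : Adm f U)
    (hM : ContinuousOn M U) (hne : ∀ x ∈ U, (M x).det ≠ 0) {σ : ℤ}
    (hσ : ∀ x ∈ U, (SignType.sign (M x).det : ℤ) = σ) :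
    deg (fun x => M x (f x)) U = σ * deg f U := by
  obtain ⟨K, U', g, hK, hU', hKU', hU'U, hzf, hg, hgr, hclose, hzg⟩ := exists_approx_nice h
  have hinj : ∀ x ∈ U, ∀ v, M x v = 0 → v = 0 := fun x hx v hv =>
    (det_ne_zero_iff.1 (hne x hx)) (hv.trans (map_zero _).symm)
  have hfin : (U' ∩ g ⁻¹' {0}).Finite :=
    (finite_zeros hg hK (fun x _ h0 => hgr x h0)).subset
      (fun x hx => ⟨interior_subset (hzg x hx.1 hx.2), hx.2⟩)
  have hcMf : ContinuousOn (fun x => M x (f x)) U := hM.clm_apply h.cont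
  have hcMg : ContinuousOn (fun x => M x (g x)) U' :=
    (hM.mono hU'U).clm_apply hg.continuous.continuousOn
  have hadmf : Adm f U' := h.mono hU' hU'U (fun x hx h0 => hKU' (interior_subset (hzf x hx h0)))
  have hadmg : Adm g U' := Adm.of_subset_compact hU' hg.continuous.continuousOn hK hKU'
    (fun x hx h0 => interior_subset (hzg x hx h0))
  have hadmMf : Adm (fun x => M x (f x)) U :=
    Adm.of_subset_compact h.isOpen hcMf hK (hKU'.trans hU'U)
      (fun x hx h0 => interior_subset (hzf x hx (hinj x hx _ h0)))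
  have hadmMf' : Adm (fun x => M x (f x)) U' :=
    hadmMf.mono hU' hU'U (fun x hx h0 => hKU' (interior_subset (hzf x hx (hinj x hx _ h0))))
  have hadmMg : Adm (fun x => M x (g x)) U' :=
    Adm.of_subset_compact hU' hcMg hK hKU'
      (fun x hx h0 => interior_subset (hzg x hx (hinj x (hU'U hx) _ h0)))
  have hfrK : ∀ x ∈ frontier K, x ∈ U' \ interior K := by
    intro x hx
    rw [hK.isClosed.frontier_eq] at hx
    exact ⟨hKU' hx.1, hx.2⟩
  have hsegne : ∀ x ∈ frontier K, ∀ s ∈ Icc (0 : ℝ) 1, (1 - s) • f x + s • g x ≠ 0 := by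
    intro x hx s hs
    have h1 := hclose x (hfrK x hx)
    refine segment_ne_zero (c := f x) ?_ h1 hs
    rw [sub_self, norm_zero]
    exact lt_of_le_of_lt (norm_nonneg _) h1
  have e1 : deg (fun x => M x (f x)) U = deg (fun x => M x (g x)) U' := by
    rw [← deg_excision hadmMf hU' hU'U
      (fun x hx h0 => hKU' (interior_subset (hzf x hx (hinj x hx _ h0))))]
    refine deg_eq_of_segment hadmMf' hadmMg hK hKU' (fun x hx h0 => hzf x (hU'U hx)
      (hinj x (hU'U hx) _ h0)) (fun x hx h0 => hzg x hx (hinj x (hU'U hx) _ h0)) ?_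
    intro x hx s hs h0
    rw [← map_smul, ← map_smul, ← map_add] at h0
    exact hsegne x hx s hs (hinj x (hU'U (hfrK x hx).1) _ h0)
  have e2 : deg f U = deg g U' := by
    rw [← deg_excision h hU' hU'U (fun x hx h0 => hKU' (interior_subset (hzf x hx h0)))]
    exact deg_eq_of_segment hadmf hadmg hK hKU' (fun x hx h0 => hzf x (hU'U hx) h0)
      (fun x hx h0 => hzg x hx h0) hsegne
  have hmem : ∀ x, x ∈ hfin.toFinset ↔ x ∈ U' ∧ g x = 0 := by
    intro x; rw [Set.Finite.mem_toFinset]; rfl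
  rw [e1, e2]
  rw [deg_eq_sum_sign hU' hg.continuous.continuousOn hfin.toFinset
    (fun x hx => ((hmem x).1 hx).1) (fun x hx => ((hmem x).1 hx).2)
    (fun x hx h0 => (hmem x).2 ⟨hx, h0⟩) (fun x => fderiv ℝ g x)
    (fun x _ => (hg.differentiable one_ne_zero x).hasFDerivAt)
    (fun x hx => hgr x ((hmem x).1 hx).2)]
  rw [deg_eq_sum_sign hU' hcMg hfin.toFinset
    (fun x hx => ((hmem x).1 hx).1) (fun x hx => by rw [((hmem x).1 hx).2, map_zero])
    (fun x hx h0 => (hmem x).2 ⟨hx, hinj x (hU'U hx) _ h0⟩) (fun x => (M x).comp (fderiv ℝ g x))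
    ?_ ?_]
  · rw [Finset.mul_sum]
    refine Finset.sum_congr rfl (fun x hx => ?_)
    rw [← hσ x (hU'U ((hmem x).1 hx).1)]
    rw [det_comp', sign_mul]
    push_cast
    ring
  · intro x hx
    obtain ⟨hxU', hx0⟩ := (hmem x).1 hx
    have hMc : ContinuousAt M x := (hM x (hU'U hxU')).continuousAt (h.isOpen.mem_nhds (hU'U hxU'))
    have hgd := (hg.differentiable one_ne_zero x).hasFDerivAt
    rw [hasFDerivAt_iff_isLittleO]
    have e : (fun y => M y (g y) - M x (g x) - ((M x).comp (fderiv ℝ g x)) (y - x))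
        = fun y => (M y - M x) (g y) + (M x) (g y - g x - fderiv ℝ g x (y - x)) := by
      funext y
      simp only [sub_apply, ContinuousLinearMap.comp_apply, map_sub]
      abel
    rw [e]
    refine IsLittleO.add ?_ ?_
    · have h1 : (fun y => ‖M y - M x‖) =o[𝓝 x] (fun _ => (1 : ℝ)) := by
        rw [isLittleO_one_iff]
        have h0 : ContinuousAt (fun y => ‖M y - M x‖) x := (hMc.sub continuousAt_const).norm
        have h1 : Tendsto (fun y => ‖M y - M x‖) (𝓝 x) (𝓝 ‖M x - M x‖) := h0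
        rwa [sub_self, norm_zero] at h1
      have h2 : (fun y => ‖g y‖) =O[𝓝 x] (fun y => ‖y - x‖) := by
        have := hgd.isBigO_sub
        rw [hx0] at this
        simpa using this.norm_norm
      have h3 := h1.mul_isBigO h2
      simp only [one_mul] at h3
      refine IsBigO.trans_isLittleO ?_ (h3.trans_isBigO (isBigO_norm_left.2 (isBigO_refl _ _)))
      refine IsBigO.of_norm_le (fun y => ?_)
      exact (M y - M x).le_opNorm (g y)
    · exact ((M x).isBigO_comp _ _).trans_isLittleO hgd.isLittleO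
  · intro x hx
    rw [det_comp']
    exact mul_ne_zero (hne x (hU'U ((hmem x).1 hx).1)) (hgr x ((hmem x).1 hx).2)

end Pool.Agent.Deg47
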