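import Pool.Agent.Lib_helper47.Deg.Core

/-! # Degree library, part 4: Brouwer degree of continuous maps `E → E`, `E` finite-dimensional -/

set_option autoImplicit false

open MeasureTheory Set Metric Filter Topology

namespace Pool.Agent.Deg47

variable {E : Type*} [NormedAddCommGroup E] [NormedSpace ℝ E] [FiniteDimensional ℝ E]

section transport

variable {F : Type*} [NormedAddCommGroup F] [NormedSpace ℝ F] [FiniteDimensional ℝ F]

/-- Conjugate of a self-map by a linear equivalence. -/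
def conj (L : E ≃L[ℝ] F) (g : E → E) : F → F := fun y => L (g (L.symm y))

omit [FiniteDimensional ℝ E] [FiniteDimensional ℝ F] in
theorem conj_contDiff (L : E ≃L[ℝ] F) {g : E → E} (hg : ContDiff ℝ 1 g) :
    ContDiff ℝ 1 (conj L g) := L.contDiff.comp (hg.comp L.symm.contDiff)

omit [FiniteDimensional ℝ E] [FiniteDimensional ℝ F] in
theorem det_conj' (L : E ≃L[ℝ] F) (A : E →L[ℝ] E) :
    ((L : E →L[ℝ] F).comp (A.comp (L.symm : F →L[ℝ] E))).det = A.det := by
  unfold ContinuousLinearMap.det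
  exact LinearMap.det_conj (A : E →ₗ[ℝ] E) L.toLinearEquiv

omit [FiniteDimensional ℝ E] [FiniteDimensional ℝ F] in
theorem det_fderiv_conj (L : E ≃L[ℝ] F) {g : E → E} (hg : ContDiff ℝ 1 g) (x : E) :
    (fderiv ℝ (conj L g) (L x)).det = (fderiv ℝ g x).det := by
  have h : HasFDerivAt (conj L g)
      ((L : E →L[ℝ] F).comp ((fderiv ℝ g x).comp (L.symm : F →L[ℝ] E))) (L x) := by
    unfold conj
    have h1 : HasFDerivAt g (fderiv ℝ g x) (L.symm (L x)) := by
      rw [L.symm_apply_apply]; exact (hg.differentiable one_ne_zero x).hasFDerivAt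
    have h2 := h1.comp (L x) (L.symm : F →L[ℝ] E).hasFDerivAt
    exact (L : E →L[ℝ] F).hasFDerivAt.comp (L x) h2
  rw [h.fderiv, det_conj']

omit [FiniteDimensional ℝ E] [FiniteDimensional ℝ F] in
theorem zeros_conj (L : E ≃L[ℝ] F) (g : E → E) (K : Set E) :
    (L '' K) ∩ (conj L g) ⁻¹' {0} = L '' (K ∩ g ⁻¹' {0}) := by
  ext y
  simp only [mem_inter_iff, mem_image, mem_preimage, mem_singleton_iff, conj]
  constructor
  · rintro ⟨⟨x, hx, rfl⟩, h⟩
    refine ⟨x, ⟨hx, ?_⟩, rfl⟩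
    rw [L.symm_apply_apply] at h
    exact (map_eq_zero_iff L L.injective).1 h
  · rintro ⟨x, ⟨hx, h0⟩, rfl⟩
    refine ⟨⟨x, hx, rfl⟩, ?_⟩
    rw [L.symm_apply_apply, h0, map_zero]

omit [FiniteDimensional ℝ E] [FiniteDimensional ℝ F] in
theorem cnt_conj (L : E ≃L[ℝ] F) {g : E → E} (hg : ContDiff ℝ 1 g) (K : Set E) :
    cnt (conj L g) (L '' K) = cnt g K := by
  unfold cnt
  rw [zeros_conj, finsum_mem_image L.injective.injOn]
  refine finsum_mem_congr rfl (fun x _ => ?_)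
  unfold sgnDet
  rw [det_fderiv_conj L hg]

omit [FiniteDimensional ℝ E] [FiniteDimensional ℝ F] in
theorem regOn_conj (L : E ≃L[ℝ] F) {g : E → E} (hg : ContDiff ℝ 1 g) {K : Set E}
    (hr : RegOn g K) : RegOn (conj L g) (L '' K) := by
  rintro y ⟨x, hx, rfl⟩ h0
  rw [det_fderiv_conj L hg]
  refine hr x hx ?_
  unfold conj at h0
  rw [L.symm_apply_apply] at h0
  exact (map_eq_zero_iff L L.injective).1 h0

end transport

/-- Homotopy invariance of the signed count. -/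
theorem cnt_eq_of_segment {g₀ g₁ : E → E} (h0 : ContDiff ℝ 1 g₀)
    (h1 : ContDiff ℝ 1 g₁) {K : Set E} (hK : IsCompact K) (r0 : RegOn g₀ K)
    (r1 : RegOn g₁ K)
    (hseg : ∀ x ∈ frontier K, ∀ s ∈ Icc (0 : ℝ) 1, (1 - s) • g₀ x + s • g₁ x ≠ 0) :
    cnt g₀ K = cnt g₁ K := by
  obtain ⟨L⟩ : Nonempty (E ≃L[ℝ] (Fin (Module.finrank ℝ E) → ℝ)) :=
    ⟨ContinuousLinearEquiv.ofFinrankEq (by simp)⟩
  rw [← cnt_conj L h0, ← cnt_conj L h1]
  refine cnt_eq_of_segment_pi (conj_contDiff L h0) (conj_contDiff L h1)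
    (hK.image L.continuous) (regOn_conj L h0 r0) (regOn_conj L h1 r1) ?_
  intro y hy s hs
  have hfr : frontier (L '' K) = L '' frontier K := (L.toHomeomorph.image_frontier K).symm
  rw [hfr] at hy
  obtain ⟨x, hx, rfl⟩ := hy
  intro h
  refine hseg x hx s hs ?_
  unfold conj at h
  rw [L.symm_apply_apply, ← map_smul, ← map_smul, ← map_add] at h
  exact (map_eq_zero_iff L L.injective).1 h

/-- Approximation of a continuous map on a compact set by a `C^1` map with regular zeros. -/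
theorem exists_approx {f : E → E} {C : Set E} (hC : IsCompact C) (hf : ContinuousOn f C)
    {δ : ℝ} (hδ : 0 < δ) :
    ∃ g : E → E, ContDiff ℝ 1 g ∧ (∀ x ∈ C, ‖g x - f x‖ < δ) ∧
      ∀ x, g x = 0 → (fderiv ℝ g x).det ≠ 0 := by
  have : TietzeExtension E := TietzeExtension.of_tvs ℝ
  -- extension
  obtain ⟨F, hF⟩ := ContinuousMap.exists_restrict_eq hC.isClosed
    (⟨C.domRestrict f, hf.domRestrict⟩ : C(C, E))
  have hFf : ∀ x ∈ C, F x = f x := by
    intro x hx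
    have h1 : (F.restrict C) ⟨x, hx⟩ = F x := rfl
    have h2 : (⟨C.domRestrict f, hf.domRestrict⟩ : C(C, E)) ⟨x, hx⟩ = f x := rfl
    rw [← h1, hF, h2]
  -- smooth approximation
  obtain ⟨g, hg⟩ := exists_contMDiffMap_forall_mem_convex_of_local_const (n := 1)
    (modelWithCornersSelf ℝ E) (F := E) (t := fun x => ball (F x) (δ / 2))
    (fun x => convex_ball _ _) (fun x => by
      refine ⟨F x, ?_⟩
      have : Tendsto (fun y => dist (F x) (F y)) (𝓝 x) (𝓝 (dist (F x) (F x))) :=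
        (continuous_const.dist F.continuous).continuousAt
      rw [dist_self] at this
      filter_upwards [this.eventually (gt_mem_nhds (half_pos hδ))] with y hy
      exact hy)
  have hgd : ContDiff ℝ 1 g := g.contMDiff.contDiff
  -- Sard
  let _ : MeasurableSpace E := borel E
  have : BorelSpace E := ⟨rfl⟩
  have hsard : (Measure.addHaar : Measure E) (g '' {x | (fderiv ℝ g x).det = 0}) = 0 :=
    addHaar_image_eq_zero_of_det_fderivWithin_eq_zero _
      (fun x _ => (hgd.differentiable one_ne_zero x).hasFDerivAt.hasFDerivWithinAt)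
      (fun x hx => hx)
  have hdense : Dense (g '' {x | (fderiv ℝ g x).det = 0})ᶜ := by
    rw [← interior_eq_empty_iff_dense_compl]
    by_contra hne
    have hne' := nonempty_iff_ne_empty.2 hne
    have := isOpen_interior.measure_pos (Measure.addHaar : Measure E) hne'
    have h2 := measure_mono_null (μ := (Measure.addHaar : Measure E))
      (interior_subset (s := g '' {x | (fderiv ℝ g x).det = 0})) hsard
    exact this.ne' h2
  obtain ⟨s, hs, hsn⟩ := hdense.exists_dist_lt (0 : E) (half_pos hδ)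
  rw [dist_zero_left] at hsn
  refine ⟨fun x => g x - s, hgd.sub contDiff_const, fun x hx => ?_, fun x hx => ?_⟩
  · have h1 := hg x
    rw [mem_ball, hFf x hx, dist_eq_norm] at h1
    calc ‖g x - s - f x‖ = ‖(g x - f x) - s‖ := by congr 1; abel
      _ ≤ ‖g x - f x‖ + ‖s‖ := norm_sub_le _ _
      _ < δ := by linarith
  · rw [fderiv_sub_const]
    intro h0
    exact hs ⟨x, h0, sub_eq_zero.1 hx⟩

/-- `n` is the degree of `f` over `U`. -/
def IsDeg (f : E → E) (U : Set E) (n : ℤ) : Prop :=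
  ∃ (K : Set E) (g : E → E), IsCompact K ∧ K ⊆ U ∧ (∀ x ∈ U, f x = 0 → x ∈ interior K) ∧
    ContDiff ℝ 1 g ∧ (∀ x ∈ frontier K, ‖g x - f x‖ < ‖f x‖) ∧ RegOn g K ∧ cnt g K = n

/-- Admissible pairs. -/
structure Adm (f : E → E) (U : Set E) : Prop where
  isOpen : IsOpen U
  cont : ContinuousOn f U
  comp : IsCompact (U ∩ f ⁻¹' {0})

omit [NormedSpace ℝ E] [FiniteDimensional ℝ E] in
theorem exists_lower_bound {f : E → E} {C : Set E} (hC : IsCompact C) (hf : ContinuousOn f C)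
    (h0 : ∀ x ∈ C, f x ≠ 0) : ∃ δ > 0, ∀ x ∈ C, δ ≤ ‖f x‖ := by
  rcases C.eq_empty_or_nonempty with he | hne
  · exact ⟨1, one_pos, fun x hx => by rw [he] at hx; exact absurd hx (notMem_empty x)⟩
  · obtain ⟨p, hp, hmin⟩ := hC.exists_isMinOn hne hf.norm
    exact ⟨‖f p‖, norm_pos_iff.2 (h0 p hp), fun x hx => hmin hx⟩

omit [FiniteDimensional ℝ E] in
theorem segment_ne_zero {a b c : E} (ha : ‖a - c‖ < ‖c‖) (hb : ‖b - c‖ < ‖c‖) {s : ℝ}
    (hs : s ∈ Icc (0 : ℝ) 1) : (1 - s) • a + s • b ≠ 0 := by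
  have hconv := convex_ball c ‖c‖
  have h1 : a ∈ ball c ‖c‖ := by rwa [mem_ball, dist_eq_norm]
  have h2 : b ∈ ball c ‖c‖ := by rwa [mem_ball, dist_eq_norm]
  have h3 := hconv h1 h2 (sub_nonneg.2 hs.2) hs.1 (by ring)
  intro h0
  rw [h0, mem_ball, dist_zero_left] at h3
  exact lt_irrefl _ h3

theorem IsDeg.unique {f : E → E} {U : Set E} (hf : ContinuousOn f U) {n₁ n₂ : ℤ}
    (H₁ : IsDeg f U n₁) (H₂ : IsDeg f U n₂) : n₁ = n₂ := by
  obtain ⟨K₁, g₁, hK₁, hKU₁, hz₁, hg₁, hc₁, hr₁, rfl⟩ := H₁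
  obtain ⟨K₂, g₂, hK₂, hKU₂, hz₂, hg₂, hc₂, hr₂, rfl⟩ := H₂
  have hC : IsCompact ((K₁ ∪ K₂) \ (interior K₁ ∩ interior K₂)) :=
    (hK₁.union hK₂).diff (isOpen_interior.inter isOpen_interior)
  have hKU : K₁ ∪ K₂ ⊆ U := union_subset hKU₁ hKU₂
  obtain ⟨δ, hδ, hδb⟩ := exists_lower_bound hC (hf.mono (sdiff_subset.trans hKU)) (by
    intro x hx h0
    exact hx.2 ⟨hz₁ x (hKU hx.1) h0, hz₂ x (hKU hx.1) h0⟩)
  obtain ⟨g, hg, hgf, hgr⟩ := exists_approx (hK₁.union hK₂) (hf.mono hKU) hδ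
  have hgne : ∀ x ∈ (K₁ ∪ K₂) \ (interior K₁ ∩ interior K₂), g x ≠ 0 := by
    intro x hx h0
    have h1 := hgf x hx.1
    have h2 := hδb x hx
    rw [h0, zero_sub, norm_neg] at h1
    linarith
  have hfr₁ : frontier K₁ ⊆ (K₁ ∪ K₂) \ (interior K₁ ∩ interior K₂) := by
    intro x hx
    rw [hK₁.isClosed.frontier_eq] at hx
    exact ⟨Or.inl hx.1, fun h => hx.2 h.1⟩
  have hfr₂ : frontier K₂ ⊆ (K₁ ∪ K₂) \ (interior K₁ ∩ interior K₂) := by
    intro x hx
    rw [hK₂.isClosed.frontier_eq] at hx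
    exact ⟨Or.inr hx.1, fun h => hx.2 h.2⟩
  have e1 : cnt g₁ K₁ = cnt g K₁ := by
    refine cnt_eq_of_segment hg₁ hg hK₁ hr₁ (fun x _ h0 => hgr x h0) (fun x hx s hs => ?_)
    refine segment_ne_zero (hc₁ x hx) ?_ hs
    exact lt_of_lt_of_le (hgf x (hfr₁ hx).1) (hδb x (hfr₁ hx))
  have e2 : cnt g₂ K₂ = cnt g K₂ := by
    refine cnt_eq_of_segment hg₂ hg hK₂ hr₂ (fun x _ h0 => hgr x h0) (fun x hx s hs => ?_)
    refine segment_ne_zero (hc₂ x hx) ?_ hs
    exact lt_of_lt_of_le (hgf x (hfr₂ hx).1) (hδb x (hfr₂ hx))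
  rw [e1, e2]
  refine cnt_congr_set ?_
  ext x
  simp only [mem_inter_iff, mem_preimage, mem_singleton_iff]
  constructor
  · rintro ⟨hx, h0⟩
    by_contra hcon
    refine hgne x ⟨Or.inl hx, fun h => hcon ⟨interior_subset h.2, h0⟩⟩ h0
  · rintro ⟨hx, h0⟩
    by_contra hcon
    refine hgne x ⟨Or.inr hx, fun h => hcon ⟨interior_subset h.1, h0⟩⟩ h0

theorem Adm.exists_isDeg {f : E → E} {U : Set E} (h : Adm f U) : ∃ n, IsDeg f U n := by
  obtain ⟨K, hK, hZK, hKU⟩ := exists_compact_between h.comp h.isOpen inter_subset_left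
  have hfrK : frontier K ⊆ K := hK.isClosed.frontier_subset
  have hfrc : IsCompact (frontier K) := hK.of_isClosed_subset isClosed_frontier hfrK
  obtain ⟨δ, hδ, hδb⟩ := exists_lower_bound hfrc (h.cont.mono (hfrK.trans hKU)) (by
    intro x hx h0
    rw [hK.isClosed.frontier_eq] at hx
    exact hx.2 (hZK ⟨hKU hx.1, h0⟩))
  obtain ⟨g, hg, hgf, hgr⟩ := exists_approx hK (h.cont.mono hKU) hδ
  refine ⟨cnt g K, K, g, hK, hKU, fun x hx h0 => hZK ⟨hx, h0⟩, hg, fun x hx => ?_,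
    fun x _ h0 => hgr x h0, rfl⟩
  exact lt_of_lt_of_le (hgf x (hfrK hx)) (hδb x hx)

open Classical in
/-- **Brouwer degree** of `f` over the open set `U` (at `0`). -/
noncomputable def deg (f : E → E) (U : Set E) : ℤ :=
  if h : ∃ n, IsDeg f U n then h.choose else 0

theorem Adm.isDeg {f : E → E} {U : Set E} (h : Adm f U) : IsDeg f U (deg f U) := by
  unfold deg
  rw [dif_pos h.exists_isDeg]
  exact h.exists_isDeg.choose_spec

theorem deg_eq_of_isDeg {f : E → E} {U : Set E} (h : Adm f U) {n : ℤ} (hn : IsDeg f U n) :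
    deg f U = n := h.isDeg.unique h.cont hn

omit [NormedSpace ℝ E] [FiniteDimensional ℝ E] in
theorem Adm.mono {f : E → E} {U V : Set E} (h : Adm f U) (hV : IsOpen V) (hVU : V ⊆ U)
    (hz : ∀ x ∈ U, f x = 0 → x ∈ V) : Adm f V := by
  refine ⟨hV, h.cont.mono hVU, ?_⟩
  have : V ∩ f ⁻¹' {0} = U ∩ f ⁻¹' {0} := by
    ext x
    exact ⟨fun hx => ⟨hVU hx.1, hx.2⟩, fun hx => ⟨hz x hx.1 hx.2, hx.2⟩⟩
  rw [this]; exact h.comp

/-- Excision. -/
theorem deg_excision {f : E → E} {U V : Set E} (h : Adm f U) (hV : IsOpen V) (hVU : V ⊆ U)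
    (hz : ∀ x ∈ U, f x = 0 → x ∈ V) : deg f V = deg f U := by
  obtain ⟨K, g, hK, hKU, hzK, hg, hc, hr, hn⟩ := (h.mono hV hVU hz).isDeg
  refine (deg_eq_of_isDeg h ⟨K, g, hK, hKU.trans hVU, fun x hx h0 => ?_, hg, hc, hr, hn⟩).symm
  exact hzK x (hz x hx h0) h0

omit [NormedSpace ℝ E] [FiniteDimensional ℝ E] in
theorem Adm.congr {f f' : E → E} {U : Set E} (h : Adm f U) (he : EqOn f f' U) : Adm f' U := by
  refine ⟨h.isOpen, h.cont.congr (fun x hx => (he hx).symm), ?_⟩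
  have : U ∩ f' ⁻¹' {0} = U ∩ f ⁻¹' {0} := by
    ext x
    simp only [mem_inter_iff, mem_preimage, mem_singleton_iff]
    exact ⟨fun hx => ⟨hx.1, by rw [he hx.1]; exact hx.2⟩,
      fun hx => ⟨hx.1, by rw [← he hx.1]; exact hx.2⟩⟩
  rw [this]; exact h.comp

theorem deg_congr {f f' : E → E} {U : Set E} (h : Adm f U) (he : EqOn f f' U) :
    deg f U = deg f' U := by
  obtain ⟨K, g, hK, hKU, hzK, hg, hc, hr, hn⟩ := (h.congr he).isDeg
  refine deg_eq_of_isDeg h ⟨K, g, hK, hKU, fun x hx h0 => ?_, hg, fun x hx => ?_, hr, hn⟩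
  · exact hzK x hx (by rw [← he hx]; exact h0)
  · rw [he (hKU (hK.isClosed.frontier_subset hx))]; exact hc x hx

omit [NormedSpace ℝ E] [FiniteDimensional ℝ E] in
theorem Adm.of_no_zeros {f : E → E} {U : Set E} (hU : IsOpen U) (hf : ContinuousOn f U)
    (h0 : ∀ x ∈ U, f x ≠ 0) : Adm f U := by
  refine ⟨hU, hf, ?_⟩
  have : U ∩ f ⁻¹' {0} = ∅ := by
    ext x
    simp only [mem_inter_iff, mem_preimage, mem_singleton_iff, mem_empty_iff_false, iff_false,
      not_and]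
    exact fun hx => h0 x hx
  rw [this]; exact isCompact_empty

theorem deg_eq_zero {f : E → E} {U : Set E} (hU : IsOpen U) (hf : ContinuousOn f U)
    (h0 : ∀ x ∈ U, f x ≠ 0) : deg f U = 0 := by
  have hadm := Adm.of_no_zeros hU hf h0
  refine deg_eq_of_isDeg hadm ⟨∅, fun _ => 0, isCompact_empty, empty_subset _,
    fun x hx h => absurd h (h0 x hx), contDiff_const, fun x hx => ?_, fun x hx => ?_, ?_⟩
  · rw [frontier_empty] at hx; exact absurd hx (notMem_empty x)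
  · exact absurd hx (notMem_empty x)
  · exact cnt_eq_zero (fun x hx => absurd hx (notMem_empty x))

/-- Rouché-type stability. -/
theorem deg_eq_of_segment {f f' : E → E} {U K : Set E} (h : Adm f U) (h' : Adm f' U)
    (hK : IsCompact K) (hKU : K ⊆ U) (hz : ∀ x ∈ U, f x = 0 → x ∈ interior K)
    (hz' : ∀ x ∈ U, f' x = 0 → x ∈ interior K)
    (hseg : ∀ x ∈ frontier K, ∀ s ∈ Icc (0 : ℝ) 1, (1 - s) • f x + s • f' x ≠ 0) :
    deg f U = deg f' U := by
  have hfrK : frontier K ⊆ K := hK.isClosed.frontier_subset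
  have hfrc : IsCompact (frontier K) := hK.of_isClosed_subset isClosed_frontier hfrK
  obtain ⟨H, hH⟩ : ∃ H : ℝ × E → E, H = fun p => (1 - p.1) • f p.2 + p.1 • f' p.2 := ⟨_, rfl⟩
  have hHc : ContinuousOn H (Icc (0 : ℝ) 1 ×ˢ frontier K) := by
    rw [hH]
    refine ContinuousOn.add ?_ ?_
    · exact (continuousOn_const.sub continuousOn_fst).smul
        ((h.cont.mono (hfrK.trans hKU)).comp continuousOn_snd (fun p hp => hp.2))
    · exact continuousOn_fst.smul
        ((h'.cont.mono (hfrK.trans hKU)).comp continuousOn_snd (fun p hp => hp.2))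
  obtain ⟨δ, hδ, hδb⟩ : ∃ δ > 0, ∀ p ∈ Icc (0 : ℝ) 1 ×ˢ frontier K, δ ≤ ‖H p‖ := by
    have hcomp := (isCompact_Icc (a := (0 : ℝ)) (b := 1)).prod hfrc
    rcases (Icc (0 : ℝ) 1 ×ˢ frontier K).eq_empty_or_nonempty with he | hne
    · exact ⟨1, one_pos, fun x hx => by rw [he] at hx; exact absurd hx (notMem_empty x)⟩
    · obtain ⟨p, hp, hmin⟩ := hcomp.exists_isMinOn hne hHc.norm
      refine ⟨‖H p‖, norm_pos_iff.2 ?_, fun x hx => hmin hx⟩
      rw [hH]; exact hseg p.2 hp.2 p.1 hp.1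
  obtain ⟨g, hg, hgf, hgr⟩ := exists_approx hK (h.cont.mono hKU) (half_pos hδ)
  obtain ⟨g', hg', hgf', hgr'⟩ := exists_approx hK (h'.cont.mono hKU) (half_pos hδ)
  have b0 : ∀ x ∈ frontier K, δ ≤ ‖f x‖ := by
    intro x hx
    have := hδb (0, x) ⟨⟨le_rfl, zero_le_one⟩, hx⟩
    rw [hH] at this; simpa using this
  have b1 : ∀ x ∈ frontier K, δ ≤ ‖f' x‖ := by
    intro x hx
    have := hδb (1, x) ⟨⟨zero_le_one, le_rfl⟩, hx⟩
    rw [hH] at this; simpa using this
  have d0 : deg f U = cnt g K := deg_eq_of_isDeg h ⟨K, g, hK, hKU, hz, hg, fun x hx => by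
    have := hgf x (hfrK hx); have := b0 x hx; linarith, fun x _ h0 => hgr x h0, rfl⟩
  have d1 : deg f' U = cnt g' K := deg_eq_of_isDeg h' ⟨K, g', hK, hKU, hz', hg', fun x hx => by
    have := hgf' x (hfrK hx); have := b1 x hx; linarith, fun x _ h0 => hgr' x h0, rfl⟩
  rw [d0, d1]
  refine cnt_eq_of_segment hg hg' hK (fun x _ h0 => hgr x h0) (fun x _ h0 => hgr' x h0)
    (fun x hx s hs h0 => ?_)
  have e : H (s, x) = ((1 - s) • f x + s • f' x) := by rw [hH]
  have h1 := hδb (s, x) ⟨hs, hx⟩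
  rw [e] at h1
  have h2 : (1 - s) • f x + s • f' x
      = -((1 - s) • (g x - f x) + s • (g' x - f' x)) := by
    have : (1 - s) • (g x - f x) + s • (g' x - f' x)
        = ((1 - s) • g x + s • g' x) - ((1 - s) • f x + s • f' x) := by
      rw [smul_sub, smul_sub]; abel
    rw [this, h0]; abel
  rw [h2, norm_neg] at h1
  have h3 : ‖(1 - s) • (g x - f x) + s • (g' x - f' x)‖ ≤ (1 - s) * (δ / 2) + s * (δ / 2) := by
    refine (norm_add_le _ _).trans ?_
    rw [norm_smul, norm_smul, Real.norm_of_nonneg (sub_nonneg.2 hs.2), Real.norm_of_nonneg hs.1]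
    have a1 := (hgf x (hfrK hx)).le
    have a2 := (hgf' x (hfrK hx)).le
    have a3 : (0 : ℝ) ≤ 1 - s := sub_nonneg.2 hs.2
    have a4 : (0 : ℝ) ≤ s := hs.1
    gcongr
  have : (1 - s) * (δ / 2) + s * (δ / 2) = δ / 2 := by ring
  rw [this] at h3
  linarith

end Pool.Agent.Deg47
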