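import Pool.Agent.Lib_helper47.Deg.Linear

/-! # Degree library, part 8: slices and compositions -/

set_option autoImplicit false

open MeasureTheory Set Metric Filter Topology Asymptotics

namespace Pool.Agent.Deg47

variable {E : Type*} [NormedAddCommGroup E] [NormedSpace ℝ E] [FiniteDimensional ℝ E]
variable {F : Type*} [NormedAddCommGroup F] [NormedSpace ℝ F] [FiniteDimensional ℝ F]

/-- Slice formula: the degree of `(x,y) ↦ (f(x,y), B y)`. -/
theorem deg_slice {f : E × F → E} {B : F →L[ℝ] F} (hB : B.det ≠ 0) {U : Set (E × F)}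
    (h : Adm (fun p : E × F => (f p, B p.2)) U) :
    Adm (fun x => f (x, 0)) {x | (x, (0 : F)) ∈ U} ∧
    deg (fun p : E × F => (f p, B p.2)) U
      = (SignType.sign B.det : ℤ) * deg (fun x => f (x, 0)) {x | (x, (0 : F)) ∈ U} := by
  have hBinj : ∀ y, B y = 0 → y = 0 := fun y hy =>
    (det_ne_zero_iff.1 hB) (hy.trans (map_zero B).symm)
  have hfc : ContinuousOn f U := continuous_fst.comp_continuousOn h.cont
  have hS : IsOpen {x : E | (x, (0 : F)) ∈ U} := h.isOpen.preimage (by fun_prop)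
  have hfS : ContinuousOn (fun x => f (x, 0)) {x : E | (x, (0 : F)) ∈ U} :=
    hfc.comp (f := fun x : E => (x, (0 : F))) (by fun_prop) (fun x hx => hx)
  have hZc : IsCompact ({x : E | (x, (0 : F)) ∈ U} ∩ (fun x => f (x, 0)) ⁻¹' {0}) := by
    have := h.comp.image continuous_fst
    convert this using 1
    ext x
    simp only [mem_inter_iff, mem_ofPred_eq, mem_preimage, mem_singleton_iff, mem_image,
      Prod.exists, exists_and_right, exists_eq_right, Prod.mk_eq_zero]
    constructor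
    · rintro ⟨hx, h0⟩
      exact ⟨0, hx, h0, map_zero B⟩
    · rintro ⟨y, hy, h0, hy0⟩
      rw [hBinj y hy0] at hy h0
      exact ⟨hy, h0⟩
  have hadm : Adm (fun x => f (x, 0)) {x | (x, (0 : F)) ∈ U} := ⟨hS, hfS, hZc⟩
  refine ⟨hadm, ?_⟩
  obtain ⟨K, hK, hZK, hKS⟩ := exists_compact_between hZc hS inter_subset_left
  obtain ⟨u, v, hu, hv, hKu, h0v, huv⟩ := generalized_tube_lemma hK
    (isCompact_singleton (x := (0 : F))) h.isOpen (by
      rintro ⟨x, y⟩ ⟨hx, hy⟩
      rw [mem_singleton_iff] at hy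
      simp only at hy hx
      rw [hy]
      exact hKS hx)
  obtain ⟨r, hr, hrv⟩ := Metric.isOpen_iff.1 hv 0 (h0v (mem_singleton _))
  have hU₀ : interior K ×ˢ ball (0 : F) r ⊆ U := by
    rintro ⟨x, y⟩ ⟨hx, hy⟩
    exact huv ⟨hKu (interior_subset hx), hrv hy⟩
  have hO : IsOpen (interior K ×ˢ ball (0 : F) r) := isOpen_interior.prod isOpen_ball
  have hz : ∀ p ∈ U, (f p, B p.2) = (0 : E × F) → p ∈ interior K ×ˢ ball (0 : F) r := by
    rintro ⟨x, y⟩ hp h0
    simp only [Prod.mk_eq_zero] at h0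
    have hy := hBinj y h0.2
    subst hy
    exact ⟨hZK ⟨hp, h0.1⟩, mem_ball_self hr⟩
  rw [← deg_excision h hO hU₀ hz]
  -- homotopy
  have hK2 : IsCompact (({x : E | (x, (0 : F)) ∈ U} ∩ (fun x => f (x, 0)) ⁻¹' {0}) ×ˢ
    ({0} : Set F)) := hZc.prod isCompact_singleton
  have hhom := deg_homotopy (fun t (p : E × F) => (f (p.1, (1 - t) • p.2), B p.2)) hO
    (K := ({x : E | (x, (0 : F)) ∈ U} ∩ (fun x => f (x, 0)) ⁻¹' {0}) ×ˢ ({0} : Set F)) ?_ hK2 ?_ ?_
  · simp only [sub_zero, one_smul, sub_self, zero_smul] at hhom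
    have e : (fun p : E × F => (f p, B p.2)) = (fun p : E × F => (f (p.1, p.2), B p.2)) := rfl
    rw [e, hhom, deg_prod (f := fun x => f (x, 0)) (g := B) (U := interior K) (V := ball 0 r)
      (hadm.mono isOpen_interior (interior_subset.trans hKS) (fun x hx h0 => hZK ⟨hx, h0⟩))
      (Adm.of_subset_compact isOpen_ball B.continuous.continuousOn (isCompact_singleton (x := (0:F)))
        (by simpa using hr) (fun y _ h0 => hBinj y h0)), mul_comm]
    congr 1
    · have := deg_affine B hB (x₀ := 0) (U := ball (0 : F) r) isOpen_ball (mem_ball_self hr)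
      simp only [sub_zero] at this
      exact this
    · exact deg_excision hadm isOpen_interior (interior_subset.trans hKS)
        (fun x hx h0 => hZK ⟨hx, h0⟩)
  · refine ContinuousOn.prodMk ?_ (by fun_prop)
    refine hfc.comp (f := fun p : ℝ × (E × F) => (p.2.1, (1 - p.1) • p.2.2)) (by fun_prop) ?_
    rintro ⟨t, x, y⟩ ⟨ht, hx, hy⟩
    refine hU₀ ⟨hx, ?_⟩
    simp only [mem_ball_zero_iff] at hy ⊢
    rw [norm_smul, Real.norm_of_nonneg (sub_nonneg.2 ht.2)]
    have h1 : (1 - t) * ‖y‖ ≤ 1 * ‖y‖ := by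
      have := ht.1
      gcongr
      linarith
    linarith
  · rintro ⟨x, y⟩ ⟨hx, hy⟩
    rw [mem_singleton_iff] at hy
    simp only at hy hx
    subst hy
    exact ⟨hZK hx, mem_ball_self hr⟩
  · rintro t ht ⟨x, y⟩ hp h0
    simp only [Prod.mk_eq_zero] at h0
    have hy := hBinj y h0.2
    subst hy
    rw [smul_zero] at h0
    exact ⟨⟨hKS (interior_subset hp.1), h0.1⟩, rfl⟩

/-- **Leray product formula**, special case of constant inner degree. -/
theorem deg_comp {h : E → E} {G : E → E} {U V K : Set E} {e : ℤ} (hU : IsOpen U)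
    (hh : ContinuousOn h U) (hV : IsOpen V) (hG : ContinuousOn G V) (hUV : MapsTo h U V)
    (hK : IsCompact K) (hKV : K ⊆ V) (hzG : ∀ y ∈ V, G y = 0 → y ∈ interior K)
    (hKc : IsCompact (U ∩ h ⁻¹' K)) (he : ∀ y ∈ K, deg (fun x => h x - y) U = e) :
    Adm (fun x => G (h x)) U ∧ deg (fun x => G (h x)) U = e * deg G V := by
  have hadmG : Adm G V := Adm.of_subset_compact hV hG hK hKV
    (fun y hy h0 => interior_subset (hzG y hy h0))
  have hGh : ContinuousOn (fun x => G (h x)) U := hG.comp hh hUV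
  have hadm : Adm (fun x => G (h x)) U := Adm.of_subset_compact hU hGh hKc inter_subset_left
    (fun x hx h0 => ⟨hx, interior_subset (s := K) (hzG _ (hUV hx) h0)⟩)
  refine ⟨hadm, ?_⟩
  have hadmh : ∀ y ∈ K, Adm (fun x => h x - y) U := fun y hy =>
    Adm.of_subset_compact hU (hh.sub continuousOn_const) hKc inter_subset_left
      (fun x hx h0 => ⟨hx, by rw [mem_preimage, sub_eq_zero.1 h0]; exact hy⟩)
  -- an intermediate compact set
  obtain ⟨K₂, hK₂, hZK₂, hK₂K⟩ := exists_compact_between hadmG.comp isOpen_interior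
    (fun y hy => hzG y hy.1 hy.2)
  obtain ⟨δ, hδ, hδb⟩ := exists_lower_bound (hK.diff isOpen_interior) (f := G)
    (C := K \ interior K₂) (hG.mono (sdiff_subset.trans hKV)) (by
      intro x hx h0
      exact hx.2 (hZK₂ ⟨hKV hx.1, h0⟩))
  obtain ⟨g, hg, hgG, hgr⟩ := exists_approx hK (hG.mono hKV) hδ
  have hclose : ∀ y ∈ K \ interior K₂, ‖g y - G y‖ < ‖G y‖ := fun y hy =>
    lt_of_lt_of_le (hgG y hy.1) (hδb y hy)
  have hsegne : ∀ y ∈ K \ interior K₂, ∀ s ∈ Icc (0 : ℝ) 1, (1 - s) • G y + s • g y ≠ 0 := by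
    intro y hy s hs
    have h1 := hclose y hy
    refine segment_ne_zero (c := G y) ?_ h1 hs
    rw [sub_self, norm_zero]
    exact lt_of_le_of_lt (norm_nonneg _) h1
  have hzg : ∀ y ∈ K, g y = 0 → y ∈ interior K₂ := by
    intro y hy h0
    by_contra hcon
    exact hsegne y ⟨hy, hcon⟩ 1 ⟨zero_le_one, le_rfl⟩ (by simp [h0])
  -- degree of `G`
  have eG : deg G V = deg g (interior K) := by
    rw [← deg_excision hadmG isOpen_interior (interior_subset.trans hKV) hzG]
    refine (deg_eq_of_segment' (K := K₂) isOpen_interior (hG.mono (interior_subset.trans hKV))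
      hg.continuous.continuousOn hK₂ hK₂K (fun y hy s hs => ?_)).2.2
    exact hsegne y ⟨interior_subset hy.1, hy.2⟩ s hs
  have hfin : (interior K ∩ g ⁻¹' {0}).Finite :=
    (finite_zeros hg hK (fun x _ h0 => hgr x h0)).subset
      (fun x hx => ⟨interior_subset hx.1, hx.2⟩)
  have hmem : ∀ x, x ∈ hfin.toFinset ↔ x ∈ interior K ∧ g x = 0 := by
    intro x; rw [Set.Finite.mem_toFinset]; rfl
  rw [eG, deg_eq_sum_sign isOpen_interior hg.continuous.continuousOn hfin.toFinset
    (fun x hx => ((hmem x).1 hx).1) (fun x hx => ((hmem x).1 hx).2)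
    (fun x hx h0 => (hmem x).2 ⟨hx, h0⟩) (fun x => fderiv ℝ g x)
    (fun x _ => (hg.differentiable one_ne_zero x).hasFDerivAt)
    (fun x hx => hgr x ((hmem x).1 hx).2)]
  -- the composed map
  obtain ⟨U₁, hU₁e⟩ : ∃ U₁ : Set E, U₁ = U ∩ h ⁻¹' interior K := ⟨_, rfl⟩
  have hU₁ : IsOpen U₁ := by rw [hU₁e]; exact hh.isOpen_inter_preimage hU isOpen_interior
  have hU₁U : U₁ ⊆ U := by rw [hU₁e]; exact inter_subset_left
  have hKc₂ : IsCompact (U ∩ h ⁻¹' K₂) := by
    have h1 : U ∩ h ⁻¹' K₂ = (U ∩ h ⁻¹' K) ∩ h ⁻¹' K₂ := by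
      ext x
      exact ⟨fun hx => ⟨⟨hx.1, interior_subset (s := K) (hK₂K hx.2)⟩, hx.2⟩, fun hx => ⟨hx.1.1, hx.2⟩⟩
    rw [h1]
    have h2 := (hh.mono (inter_subset_left (s := U) (t := h ⁻¹' K))).preimage_isClosed_of_isClosed
      hKc.isClosed hK₂.isClosed
    exact hKc.of_isClosed_subset h2 inter_subset_left
  have hK₂U₁ : U ∩ h ⁻¹' K₂ ⊆ U₁ := by
    rw [hU₁e]; exact fun x hx => ⟨hx.1, hK₂K hx.2⟩
  have e1 : deg (fun x => G (h x)) U = deg (fun x => g (h x)) U₁ := by
    rw [← deg_excision hadm hU₁ hU₁U (fun x hx h0 => by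
      rw [hU₁e]; exact ⟨hx, hzG _ (hUV hx) h0⟩)]
    have hhom := deg_homotopy (fun t x => (1 - t) • G (h x) + t • g (h x)) hU₁
      (K := U ∩ h ⁻¹' K₂) ?_ hKc₂ hK₂U₁ ?_
    · simpa using hhom
    · refine ContinuousOn.add ?_ ?_
      · exact (continuousOn_const.sub continuousOn_fst).smul
          ((hGh.mono hU₁U).comp continuousOn_snd (fun p hp => hp.2))
      · exact continuousOn_fst.smul
          ((hg.continuous.comp_continuousOn (hh.mono hU₁U)).comp continuousOn_snd
            (fun p hp => hp.2))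
    · intro t ht x hx h0
      rw [hU₁e] at hx
      refine ⟨hx.1, ?_⟩
      by_contra hcon
      exact hsegne (h x) ⟨interior_subset hx.2, fun hi => hcon (interior_subset (s := K₂) hi)⟩ t ht h0
  have hadm₁ : Adm (fun x => g (h x)) U₁ :=
    Adm.of_subset_compact hU₁ (hg.continuous.comp_continuousOn (hh.mono hU₁U)) hKc₂ hK₂U₁
      (fun x hx h0 => by
        rw [hU₁e] at hx
        exact ⟨hx.1, interior_subset (s := K₂) (hzg _ (interior_subset hx.2) h0)⟩)
  -- local analysis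
  obtain ⟨O, hO, hOd⟩ := hfin.toFinset.finite_toSet.t2_separation
  have hloc : ∀ p ∈ hfin.toFinset, ∃ ρ > 0, closedBall p ρ ⊆ O p ∩ interior K ∧
      ∀ y ∈ closedBall p ρ, ∀ s ∈ Icc (0 : ℝ) 1,
        (1 - s) • g y + s • (fderiv ℝ g p) (y - p) = 0 → y = p := by
    intro p hp
    obtain ⟨hpK, hp0⟩ := (hmem p).1 hp
    have hdet := hgr p hp0
    have hd := (hg.differentiable one_ne_zero p).hasFDerivAt
    obtain ⟨c, hc, hcb⟩ := exists_lower_bound_linear _ hdet
    have hlit := hd.isLittleO.def (half_pos hc)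
    obtain ⟨r, hr, hrU⟩ := Metric.nhds_basis_closedBall.mem_iff.1
      (inter_mem (inter_mem ((hO p).2.mem_nhds (hO p).1) (isOpen_interior.mem_nhds hpK)) hlit)
    refine ⟨r, hr, fun y hy => (hrU hy).1, fun y hy s hs hcon => ?_⟩
    have h1 : ‖g y - g p - (fderiv ℝ g p) (y - p)‖ ≤ c / 2 * ‖y - p‖ := (hrU hy).2
    rw [hp0, sub_zero] at h1
    have h2 := hcb (y - p)
    have h3 : (fderiv ℝ g p) (y - p) = -((1 - s) • (g y - (fderiv ℝ g p) (y - p))) := by
      rw [smul_sub]
      have : (1 - s) • g y = - (s • (fderiv ℝ g p) (y - p)) := eq_neg_of_add_eq_zero_left hcon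
      rw [this, sub_smul, one_smul]; abel
    rw [h3, norm_neg, norm_smul, Real.norm_of_nonneg (sub_nonneg.2 hs.2)] at h2
    have h4 : (1 - s) * ‖g y - (fderiv ℝ g p) (y - p)‖ ≤ 1 * (c / 2 * ‖y - p‖) := by
      gcongr
      · linarith [hs.1]
    have h5 : c * ‖y - p‖ ≤ 0 := by linarith
    have h6 : ‖y - p‖ ≤ 0 := by
      by_contra hcon2
      push Not at hcon2
      exact absurd h5 (not_le.2 (mul_pos hc hcon2))
    exact sub_eq_zero.1 (norm_le_zero_iff.1 h6)
  choose! ρ hρ hρO hρz using hloc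
  have hUp : ∀ p ∈ hfin.toFinset, IsOpen (U ∩ h ⁻¹' ball p (ρ p)) := fun p _ =>
    hh.isOpen_inter_preimage hU isOpen_ball
  have hUpU₁ : ∀ p ∈ hfin.toFinset, U ∩ h ⁻¹' ball p (ρ p) ⊆ U₁ := by
    intro p hp x hx
    rw [hU₁e]
    exact ⟨hx.1, (hρO p hp (ball_subset_closedBall hx.2)).2⟩
  rw [e1, deg_eq_sum hadm₁ hfin.toFinset (fun p => U ∩ h ⁻¹' ball p (ρ p)) hUp hUpU₁ ?_ ?_,
    Finset.mul_sum]
  · refine Finset.sum_congr rfl (fun p hp => ?_)
    obtain ⟨hpK, hp0⟩ := (hmem p).1 hp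
    have hdet := hgr p hp0
    have hpKK : p ∈ K := interior_subset hpK
    have hZp : IsCompact (U ∩ (fun x => h x - p) ⁻¹' {0}) := (hadmh p hpKK).comp
    have hZpU : U ∩ (fun x => h x - p) ⁻¹' {0} ⊆ U ∩ h ⁻¹' ball p (ρ p) := by
      rintro x ⟨hx, h0⟩
      refine ⟨hx, ?_⟩
      rw [mem_preimage, sub_eq_zero.1 h0]
      exact mem_ball_self (hρ p hp)
    have hhom := deg_homotopy (fun t x => (1 - t) • g (h x) + t • (fderiv ℝ g p) (h x - p))
      (hUp p hp) (K := U ∩ (fun x => h x - p) ⁻¹' {0}) ?_ hZp hZpU ?_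
    · simp only [sub_zero, one_smul, zero_smul, add_zero, sub_self, zero_add] at hhom
      rw [hhom, deg_comp_left (f := fun x => h x - p)
        ((hadmh p hpKK).mono (hUp p hp) inter_subset_left
          (fun x hx h0 => hZpU ⟨hx, h0⟩)) _ hdet,
        deg_excision (hadmh p hpKK) (hUp p hp) inter_subset_left
          (fun x hx h0 => hZpU ⟨hx, h0⟩), he p hpKK, mul_comm]
    · have hhp : ContinuousOn (fun q : ℝ × E => h q.2)
          (Icc (0 : ℝ) 1 ×ˢ (U ∩ h ⁻¹' ball p (ρ p))) :=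
        (hh.mono inter_subset_left).comp continuousOn_snd (fun q hq => hq.2)
      refine ContinuousOn.add ?_ ?_
      · exact (continuousOn_const.sub continuousOn_fst).smul
          (hg.continuous.comp_continuousOn hhp)
      · exact continuousOn_fst.smul
          ((fderiv ℝ g p).continuous.comp_continuousOn (hhp.sub continuousOn_const))
    · intro t ht x hx h0
      refine ⟨hx.1, ?_⟩
      have := hρz p hp (h x) (ball_subset_closedBall hx.2) t ht h0
      rw [mem_preimage, this, sub_self]; rfl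
  · intro p hp p' hp' hne
    have hdis := hOd hp hp' hne
    rw [Function.onFun, disjoint_left]
    intro x hx hx'
    exact (disjoint_left.1 hdis) (hρO p hp (ball_subset_closedBall hx.2)).1
      (hρO p' hp' (ball_subset_closedBall hx'.2)).1
  · intro x hx h0
    rw [hU₁e] at hx
    refine ⟨h x, (hmem _).2 ⟨hx.2, h0⟩, hx.1, ?_⟩
    exact mem_ball_self (hρ _ ((hmem _).2 ⟨hx.2, h0⟩))

end Pool.Agent.Deg47
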