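import Pool.Agent.Lib_helper47.Deg.Kernel

/-! # Degree library, part 3: counting regular zeros of `C^1` maps -/

set_option autoImplicit false

open MeasureTheory Set Metric Filter Topology

namespace Pool.Agent.Deg47

section general

variable {E : Type*} [NormedAddCommGroup E] [NormedSpace ℝ E]

/-- Sign of the Jacobian determinant. -/
noncomputable def sgnDet (g : E → E) (x : E) : ℤ := (SignType.sign (fderiv ℝ g x).det : ℤ)

/-- Signed count of the zeros of `g` in `K`. -/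
noncomputable def cnt (g : E → E) (K : Set E) : ℤ := ∑ᶠ x ∈ K ∩ g ⁻¹' {0}, sgnDet g x

/-- All zeros of `g` in `K` are regular. -/
def RegOn (g : E → E) (K : Set E) : Prop := ∀ x ∈ K, g x = 0 → (fderiv ℝ g x).det ≠ 0

theorem RegOn.mono {g : E → E} {K K' : Set E} (h : RegOn g K) (hK : K' ⊆ K) : RegOn g K' :=
  fun x hx h0 => h x (hK hx) h0

theorem cnt_eq_zero {g : E → E} {K : Set E} (h : ∀ x ∈ K, g x ≠ 0) : cnt g K = 0 := by
  unfold cnt
  have : K ∩ g ⁻¹' {0} = ∅ := by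
    ext x; simp only [mem_inter_iff, mem_preimage, mem_singleton_iff, mem_empty_iff_false,
      iff_false, not_and]
    exact fun hx => h x hx
  rw [this]; simp

theorem cnt_congr_set {g : E → E} {K K' : Set E}
    (h : K ∩ g ⁻¹' {0} = K' ∩ g ⁻¹' {0}) : cnt g K = cnt g K' := by
  unfold cnt; rw [h]

variable [FiniteDimensional ℝ E]

theorem det_ne_zero_iff {A : E →L[ℝ] E} : A.det ≠ 0 ↔ Function.Injective A := by
  unfold ContinuousLinearMap.det
  constructor
  · intro h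
    have := LinearMap.equivOfDetNeZero (A : E →ₗ[ℝ] E) h
    have h2 : IsUnit (A : E →ₗ[ℝ] E) := by
      rw [LinearMap.isUnit_iff_isUnit_det]; exact isUnit_iff_ne_zero.2 h
    rw [LinearMap.isUnit_iff_ker_eq_bot] at h2
    exact LinearMap.ker_eq_bot.1 h2
  · intro h
    have h2 : IsUnit (A : E →ₗ[ℝ] E) := by
      rw [LinearMap.isUnit_iff_ker_eq_bot]; exact LinearMap.ker_eq_bot.2 h
    rw [LinearMap.isUnit_iff_isUnit_det] at h2
    exact isUnit_iff_ne_zero.1 h2

/-- A continuous linear equivalence from an injective endomorphism. -/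
noncomputable def equivOfDet (A : E →L[ℝ] E) (h : A.det ≠ 0) : E ≃L[ℝ] E :=
  (LinearEquiv.ofInjectiveEndo (A : E →ₗ[ℝ] E) (det_ne_zero_iff.1 h)).toContinuousLinearEquiv

theorem coe_equivOfDet (A : E →L[ℝ] E) (h : A.det ≠ 0) :
    ((equivOfDet A h : E ≃L[ℝ] E) : E →L[ℝ] E) = A := by
  ext x; rfl

theorem finite_zeros {g : E → E} (hg : ContDiff ℝ 1 g) {K : Set E} (hK : IsCompact K)
    (hr : RegOn g K) : (K ∩ g ⁻¹' {0}).Finite := by
  have hZ : IsCompact (K ∩ g ⁻¹' {0}) := hK.inter_right (isClosed_singleton.preimage hg.continuous)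
  have hloc : ∀ x ∈ K ∩ g ⁻¹' {0}, {z | z ≠ x → g z ≠ 0} ∈ 𝓝 x := by
    intro x hx
    have hdet := hr x hx.1 hx.2
    have hA : ∃ C, AntilipschitzWith C (fderiv ℝ g x) :=
      ⟨_, (equivOfDet (fderiv ℝ g x) hdet).antilipschitz⟩
    have := (hg.differentiable one_ne_zero x).hasFDerivAt.eventually_ne (c := 0) hA
    rw [eventually_nhdsWithin_iff] at this
    exact this
  obtain ⟨t, ht, hcov⟩ := hZ.elim_nhds_subcover _ hloc
  refine t.finite_toSet.subset (fun z hz => ?_)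
  obtain ⟨x, hx, hzx⟩ := mem_iUnion₂.1 (hcov hz)
  by_contra hne
  have : z ≠ x := fun h => hne (h ▸ hx)
  exact hzx this hz.2

omit [FiniteDimensional ℝ E] in
theorem cnt_eq_sum {g : E → E} {K : Set E} (hf : (K ∩ g ⁻¹' {0}).Finite) :
    cnt g K = ∑ x ∈ hf.toFinset, sgnDet g x := by
  unfold cnt
  exact finsum_mem_eq_finite_toFinset_sum _ hf

end general

variable {ι : Type*} [Fintype ι]

/-- Local degree integral at a regular zero. -/
theorem local_degInt {g : (ι → ℝ) → (ι → ℝ)} (hg : ContDiff ℝ 1 g) {x₀ : ι → ℝ} (h0 : g x₀ = 0)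
    (hdet : (fderiv ℝ g x₀).det ≠ 0) {N : Set (ι → ℝ)} (hN : N ∈ 𝓝 x₀) :
    ∃ O : Set (ι → ℝ), IsOpen O ∧ x₀ ∈ O ∧ O ⊆ N ∧ ∃ ε₀ > 0, ∀ ε, 0 < ε → ε < ε₀ →
      ∫ x in O, ker ε (g x) * (fderiv ℝ g x).det = (sgnDet g x₀ : ℝ) := by
  have hstrict : HasStrictFDerivAt g
      ((equivOfDet (fderiv ℝ g x₀) hdet : (ι → ℝ) ≃L[ℝ] (ι → ℝ)) : (ι → ℝ) →L[ℝ] (ι → ℝ)) x₀ := by
    rw [coe_equivOfDet]
    exact hg.contDiffAt.hasStrictFDerivAt one_ne_zero
  obtain ⟨e, he⟩ : ∃ e, e = hstrict.toOpenPartialHomeomorph g := ⟨_, rfl⟩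
  have hcoe : (e : (ι → ℝ) → (ι → ℝ)) = g := by rw [he]; rfl
  have hx0s : x₀ ∈ e.source := by rw [he]; exact hstrict.mem_toOpenPartialHomeomorph_source
  obtain ⟨O, hO⟩ : ∃ O : Set (ι → ℝ), O = e.source ∩ interior N ∩
    {x | 0 < (fderiv ℝ g x).det * (fderiv ℝ g x₀).det} := ⟨_, rfl⟩
  have hOo : IsOpen O := by
    rw [hO]
    refine (e.open_source.inter isOpen_interior).inter ?_
    exact isOpen_lt continuous_const ((continuous_det_fderiv hg).mul continuous_const)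
  have hxO : x₀ ∈ O := by
    rw [hO]
    exact ⟨⟨hx0s, mem_interior_iff_mem_nhds.2 hN⟩, by
      simp only [mem_ofPred_eq]; exact mul_self_pos.2 hdet⟩
  have hOs : O ⊆ e.source := by rw [hO]; exact fun x hx => hx.1.1
  have himg : IsOpen (g '' O) := by
    rw [← hcoe]; exact e.isOpen_image_of_subset_source hOo hOs
  have hinj : InjOn g O := by
    rw [← hcoe]; exact e.injOn.mono hOs
  obtain ⟨ε₀, hε₀, hball⟩ := Metric.isOpen_iff.1 himg 0 ⟨x₀, hxO, h0⟩
  refine ⟨O, hOo, hxO, by rw [hO]; exact fun x hx => interior_subset hx.1.2, ε₀, hε₀,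
    fun ε hε hεε => ?_⟩
  have hsign : ∀ x ∈ O, (fderiv ℝ g x).det = (sgnDet g x₀ : ℝ) * |(fderiv ℝ g x).det| := by
    intro x hx
    rw [hO] at hx
    have hpos := hx.2
    simp only [mem_ofPred_eq] at hpos
    unfold sgnDet
    rcases lt_or_gt_of_ne hdet with h | h
    · rw [sign_neg h]
      have : (fderiv ℝ g x).det < 0 := by nlinarith
      rw [abs_of_neg this]; simp
    · rw [sign_pos h]
      have : 0 < (fderiv ℝ g x).det := by
        by_contra hcon; push Not at hcon; nlinarith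
      rw [abs_of_pos this]; simp
  have e1 : ∫ x in O, ker ε (g x) * (fderiv ℝ g x).det
      = (sgnDet g x₀ : ℝ) * ∫ x in O, |(fderiv ℝ g x).det| • ker ε (g x) := by
    rw [← integral_const_mul]
    refine setIntegral_congr_fun hOo.measurableSet (fun x hx => ?_)
    simp only [smul_eq_mul]
    rw [hsign x hx, abs_mul]
    have hs : |(sgnDet g x₀ : ℝ)| = 1 := by
      unfold sgnDet
      rcases lt_or_gt_of_ne hdet with h | h
      · rw [sign_neg h]; simp
      · rw [sign_pos h]; simp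
    rw [hs, abs_abs]; ring
  rw [e1, ← integral_image_eq_integral_abs_det_fderiv_smul volume hOo.measurableSet
    (fun x _ => (hg.differentiable one_ne_zero x).hasFDerivAt.hasFDerivWithinAt) hinj]
  have e2 : ∫ y in g '' O, ker ε y = ∫ y : ι → ℝ, ker ε y := by
    apply setIntegral_eq_integral_of_forall_compl_eq_zero
    intro y hy
    apply ker_eq_zero hε
    by_contra hcon
    push Not at hcon
    exact hy (hball (by rw [mem_ball_zero_iff]; linarith))
  rw [e2, integral_ker hε, mul_one]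

/-- The degree integral computes the signed count of zeros. -/
theorem degInt_eq_cnt {g : (ι → ℝ) → (ι → ℝ)} (hg : ContDiff ℝ 1 g) {K : Set (ι → ℝ)}
    (hK : IsCompact K) (hr : RegOn g K) (hfr : ∀ x ∈ frontier K, g x ≠ 0) :
    ∃ ε₀ > 0, ∀ ε, 0 < ε → ε < ε₀ → degInt g K ε = (cnt g K : ℝ) := by
  classical
  have hfin := finite_zeros hg hK hr
  have hint : ∀ x ∈ hfin.toFinset, x ∈ interior K := by
    intro x hx
    rw [Set.Finite.mem_toFinset] at hx
    by_contra hnot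
    exact hfr x (by rw [hK.isClosed.frontier_eq]; exact ⟨hx.1, hnot⟩) hx.2
  obtain ⟨U, hU, hUd⟩ := hfin.t2_separation
  have hloc : ∀ x ∈ hfin.toFinset, ∃ O : Set (ι → ℝ), IsOpen O ∧ x ∈ O ∧ O ⊆ U x ∩ interior K ∧
      ∃ ε₀ > 0, ∀ ε, 0 < ε → ε < ε₀ →
      ∫ y in O, ker ε (g y) * (fderiv ℝ g y).det = (sgnDet g x : ℝ) := by
    intro x hx
    have hx' := hx
    rw [Set.Finite.mem_toFinset] at hx'
    refine local_degInt hg hx'.2 (hr x hx'.1 hx'.2) ?_
    exact inter_mem ((hU x).2.mem_nhds (hU x).1) (isOpen_interior.mem_nhds (hint x hx))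
  choose! O hOo hxO hOU e he hInt using hloc
  -- lower bound away from the `O x`
  have hcomp : IsCompact (K \ ⋃ x ∈ hfin.toFinset, O x) :=
    hK.diff (isOpen_biUnion (fun x hx => hOo x hx))
  obtain ⟨δ, hδ, hδb⟩ : ∃ δ > 0, ∀ x ∈ K \ ⋃ x ∈ hfin.toFinset, O x, δ ≤ ‖g x‖ := by
    rcases (K \ ⋃ x ∈ hfin.toFinset, O x).eq_empty_or_nonempty with hem | hne
    · exact ⟨1, one_pos, fun p hp => by rw [hem] at hp; exact absurd hp (notMem_empty p)⟩
    · obtain ⟨p, hp, hmin⟩ := hcomp.exists_isMinOn hne hg.continuous.norm.continuousOn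
      refine ⟨‖g p‖, ?_, fun p' hp' => hmin hp'⟩
      rw [gt_iff_lt, norm_pos_iff]
      intro h0
      refine hp.2 (mem_iUnion₂.2 ⟨p, ?_, hxO p ?_⟩)
      · rw [Set.Finite.mem_toFinset]; exact ⟨hp.1, h0⟩
      · rw [Set.Finite.mem_toFinset]; exact ⟨hp.1, h0⟩
  -- a common `ε₀`
  obtain ⟨ε₁, hε₁, hε₁le⟩ : ∃ ε₁ > 0, ∀ x ∈ hfin.toFinset, ε₁ ≤ e x := by
    rcases hfin.toFinset.eq_empty_or_nonempty with hem | hne
    · exact ⟨1, one_pos, fun x hx => by rw [hem] at hx; simp at hx⟩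
    · obtain ⟨x, hx, hmin⟩ := hfin.toFinset.exists_min_image e hne
      exact ⟨e x, he x hx, fun y hy => hmin y hy⟩
  refine ⟨min δ ε₁, lt_min hδ hε₁, fun ε hε hεε => ?_⟩
  have hεδ : ε < δ := lt_of_lt_of_le hεε (min_le_left _ _)
  have hεe : ε < ε₁ := lt_of_lt_of_le hεε (min_le_right _ _)
  have hcontF : Continuous fun x => ker ε (g x) * (fderiv ℝ g x).det :=
    ((ker_continuous ε).comp hg.continuous).mul (continuous_det_fderiv hg)
  have hsub : (⋃ x ∈ hfin.toFinset, O x) ⊆ K := by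
    refine iUnion₂_subset (fun x hx => ?_)
    exact (hOU x hx).trans (inter_subset_right.trans interior_subset)
  unfold degInt
  have s1 : ∫ x in K, ker ε (g x) * (fderiv ℝ g x).det
      = ∫ x in ⋃ x ∈ hfin.toFinset, O x, ker ε (g x) * (fderiv ℝ g x).det := by
    apply setIntegral_eq_of_subset_of_forall_sdiff_eq_zero hK.measurableSet hsub
    intro x hx
    rw [ker_eq_zero hε (lt_of_lt_of_le hεδ (hδb x hx)), zero_mul]
  rw [s1, integral_biUnion_finset]
  · rw [cnt_eq_sum hfin]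
    push_cast
    refine Finset.sum_congr rfl (fun x hx => ?_)
    exact hInt x hx ε hε (lt_of_lt_of_le hεe (hε₁le x hx))
  · intro x hx; exact (hOo x hx).measurableSet
  · intro x hx y hy hxy
    have hx' : x ∈ K ∩ g ⁻¹' {0} := by simpa using hx
    have hy' : y ∈ K ∩ g ⁻¹' {0} := by simpa using hy
    have := hUd hx' hy' hxy
    exact this.mono ((hOU x hx).trans inter_subset_left) ((hOU y hy).trans inter_subset_left)
  · intro x hx
    exact (hcontF.continuousOn.integrableOn_compact hK).mono_set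
      ((hOU x hx).trans (inter_subset_right.trans interior_subset))

/-- Homotopy invariance of the signed count, in `ι → ℝ`. -/
theorem cnt_eq_of_segment_pi {g₀ g₁ : (ι → ℝ) → (ι → ℝ)} (h0 : ContDiff ℝ 1 g₀)
    (h1 : ContDiff ℝ 1 g₁) {K : Set (ι → ℝ)} (hK : IsCompact K) (r0 : RegOn g₀ K)
    (r1 : RegOn g₁ K)
    (hseg : ∀ x ∈ frontier K, ∀ s ∈ Icc (0 : ℝ) 1, (1 - s) • g₀ x + s • g₁ x ≠ 0) :
    cnt g₀ K = cnt g₁ K := by
  obtain ⟨a, ha, ha'⟩ := degInt_eq_of_segment h0 h1 hK hseg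
  obtain ⟨b, hb, hb'⟩ := degInt_eq_cnt h0 hK r0 (fun x hx => by
    simpa using hseg x hx 0 ⟨le_rfl, zero_le_one⟩)
  obtain ⟨c, hc, hc'⟩ := degInt_eq_cnt h1 hK r1 (fun x hx => by
    simpa using hseg x hx 1 ⟨zero_le_one, le_rfl⟩)
  obtain ⟨ε, hε, hεm⟩ := exists_between (lt_min ha (lt_min hb hc))
  have e1 := ha' ε hε (lt_of_lt_of_le hεm (min_le_left _ _))
  have e2 := hb' ε hε (lt_of_lt_of_le hεm ((min_le_right _ _).trans (min_le_left _ _)))
  have e3 := hc' ε hε (lt_of_lt_of_le hεm ((min_le_right _ _).trans (min_le_right _ _)))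
  rw [e2, e3] at e1
  exact_mod_cast e1

end Pool.Agent.Deg47
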