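import Pool.Agent.Lib_helper47.Deg.Basic

/-! # Degree library, part 5: homotopy invariance and additivity -/

set_option autoImplicit false

open MeasureTheory Set Metric Filter Topology

namespace Pool.Agent.Deg47

variable {E : Type*} [NormedAddCommGroup E] [NormedSpace ℝ E] [FiniteDimensional ℝ E]

omit [NormedSpace ℝ E] [FiniteDimensional ℝ E] in
/-- Admissibility from a compact set containing the zeros. -/
theorem Adm.of_subset_compact {f : E → E} {U K : Set E} (hU : IsOpen U) (hf : ContinuousOn f U)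
    (hK : IsCompact K) (hKU : K ⊆ U) (hz : ∀ x ∈ U, f x = 0 → x ∈ K) : Adm f U := by
  refine ⟨hU, hf, ?_⟩
  have h1 : U ∩ f ⁻¹' {0} = K ∩ f ⁻¹' {0} := by
    ext x
    exact ⟨fun hx => ⟨hz x hx.1 hx.2, hx.2⟩, fun hx => ⟨hKU hx.1, hx.2⟩⟩
  rw [h1]
  obtain ⟨V, hV, hVe⟩ : ∃ V, IsClosed V ∧ K ∩ f ⁻¹' {0} = K ∩ V := by
    have := (hf.mono hKU).preimage_isClosed_of_isClosed hK.isClosed (isClosed_singleton (x := (0 : E)))
    exact ⟨K ∩ f ⁻¹' {0}, this, by rw [← inter_assoc, inter_self]⟩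
  rw [hVe]
  exact hK.inter_right hV

/-- **Homotopy invariance** of the degree. -/
theorem deg_homotopy (H : ℝ → E → E) {U K : Set E} (hU : IsOpen U)
    (hc : ContinuousOn (fun p : ℝ × E => H p.1 p.2) (Icc (0 : ℝ) 1 ×ˢ U))
    (hK : IsCompact K) (hKU : K ⊆ U)
    (hz : ∀ t ∈ Icc (0 : ℝ) 1, ∀ x ∈ U, H t x = 0 → x ∈ K) : deg (H 0) U = deg (H 1) U := by
  obtain ⟨K', hK', hKK', hK'U⟩ := exists_compact_between hK hU hKU
  have hfrK : frontier K' ⊆ K' := hK'.isClosed.frontier_subset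
  have hfrc : IsCompact (frontier K') := hK'.of_isClosed_subset isClosed_frontier hfrK
  have hct : ∀ t ∈ Icc (0 : ℝ) 1, ContinuousOn (H t) U := by
    intro t ht
    exact hc.comp (f := fun x : E => (t, x)) (by fun_prop) (fun x hx => ⟨ht, hx⟩)
  have hadm : ∀ t ∈ Icc (0 : ℝ) 1, Adm (H t) U := fun t ht =>
    Adm.of_subset_compact hU (hct t ht) hK hKU (hz t ht)
  obtain ⟨δ, hδ, hδb⟩ : ∃ δ > 0, ∀ p ∈ Icc (0 : ℝ) 1 ×ˢ frontier K', δ ≤ ‖H p.1 p.2‖ := by
    have hcomp := (isCompact_Icc (a := (0 : ℝ)) (b := 1)).prod hfrc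
    have hcc : ContinuousOn (fun p : ℝ × E => H p.1 p.2) (Icc (0 : ℝ) 1 ×ˢ frontier K') :=
      hc.mono (prod_mono le_rfl (hfrK.trans hK'U))
    rcases (Icc (0 : ℝ) 1 ×ˢ frontier K').eq_empty_or_nonempty with he | hne
    · exact ⟨1, one_pos, fun x hx => by rw [he] at hx; exact absurd hx (notMem_empty x)⟩
    · obtain ⟨p, hp, hmin⟩ := hcomp.exists_isMinOn hne hcc.norm
      refine ⟨‖H p.1 p.2‖, norm_pos_iff.2 ?_, fun x hx => hmin hx⟩
      intro h0
      have h1 := hz p.1 hp.1 p.2 (hK'U (hfrK hp.2)) h0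
      have h2 := hp.2
      rw [hK'.isClosed.frontier_eq] at h2
      exact h2.2 (hKK' h1)
  have hcompK := (isCompact_Icc (a := (0 : ℝ)) (b := 1)).prod hK'
  have huc := hcompK.uniformContinuousOn_of_continuous (hc.mono (prod_mono le_rfl hK'U))
  rw [Metric.uniformContinuousOn_iff] at huc
  obtain ⟨ε, hε, hεb⟩ := huc δ hδ
  have hstep : ∀ s ∈ Icc (0 : ℝ) 1, ∀ t ∈ Icc (0 : ℝ) 1, |s - t| < ε →
      deg (H s) U = deg (H t) U := by
    intro s hs t ht hst
    refine deg_eq_of_segment (hadm s hs) (hadm t ht) hK' hK'U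
      (fun x hx h0 => hKK' (hz s hs x hx h0)) (fun x hx h0 => hKK' (hz t ht x hx h0)) ?_
    intro x hx r hr
    have hxK : x ∈ K' := hfrK hx
    refine segment_ne_zero (c := H s x) ?_ ?_ hr
    · rw [sub_self, norm_zero]
      exact lt_of_lt_of_le hδ (hδb (s, x) ⟨hs, hx⟩)
    · have h1 := hεb (t, x) ⟨ht, hxK⟩ (s, x) ⟨hs, hxK⟩ (by
        rw [Prod.dist_eq, dist_self, Real.dist_eq, abs_sub_comm]
        exact max_lt hst hε)
      rw [dist_eq_norm] at h1
      exact lt_of_lt_of_le h1 (hδb (s, x) ⟨hs, hx⟩)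
  obtain ⟨N, hN⟩ := exists_nat_gt (1 / ε)
  have hN0 : (0 : ℝ) < N := lt_trans (by positivity) hN
  have hind : ∀ k : ℕ, k ≤ N → deg (H 0) U = deg (H ((k : ℝ) / N)) U := by
    intro k
    induction k with
    | zero => intro _; simp
    | succ k ih =>
      intro hk
      rw [ih (by omega)]
      have hk1 : ((k : ℝ) + 1) ≤ N := by exact_mod_cast hk
      refine hstep _ ⟨by positivity, ?_⟩ _ ⟨by positivity, ?_⟩ ?_
      · rw [div_le_one hN0]; linarith
      · rw [div_le_one hN0]; push_cast; linarith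
      · push_cast
        have : (k : ℝ) / N - ((k : ℝ) + 1) / N = -(1 / N) := by ring
        rw [this, abs_neg, abs_of_pos (by positivity)]
        rw [div_lt_iff₀ hε] at hN
        rw [div_lt_iff₀ hN0]
        linarith
  have := hind N le_rfl
  rwa [div_self hN0.ne'] at this

/-- Additivity for two disjoint open sets. -/
theorem deg_union {f : E → E} {U V : Set E} (hU : IsOpen U) (hV : IsOpen V)
    (hd : Disjoint U V) (h : Adm f (U ∪ V)) :
    deg f (U ∪ V) = deg f U + deg f V := by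
  obtain ⟨K, g, hK, hKU, hzK, hg, hc, hr, hn⟩ := h.isDeg
  have hfrK : frontier K ⊆ K := hK.isClosed.frontier_subset
  -- the two pieces
  have key : ∀ A B : Set E, IsOpen A → IsOpen B → Disjoint A B → U ∪ V = A ∪ B →
      Adm f A ∧ IsDeg f A (cnt g (K \ B)) := by
    intro A B hA hB hAB he
    have hKA : K \ B ⊆ A := by
      intro x hx
      have := hKU hx.1
      rw [he] at this
      rcases this with h1 | h1
      · exact h1
      · exact absurd h1 hx.2
    have hKAe : K \ B = K ∩ A := by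
      ext x
      exact ⟨fun hx => ⟨hx.1, hKA hx⟩, fun hx => ⟨hx.1, fun hb => (disjoint_left.1 hAB) hx.2 hb⟩⟩
    have hint : ∀ x ∈ A, x ∈ interior K → x ∈ interior (K \ B) := by
      intro x hxA hxK
      rw [hKAe, interior_inter, hA.interior_eq]
      exact ⟨hxK, hxA⟩
    have hKc : IsCompact (K \ B) := hK.diff hB
    have hzA : ∀ x ∈ A, f x = 0 → x ∈ interior (K \ B) := by
      intro x hx h0
      have : x ∈ U ∪ V := by rw [he]; exact Or.inl hx
      exact hint x hx (hzK x this h0)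
    have hAU : A ⊆ U ∪ V := by rw [he]; exact subset_union_left
    refine ⟨Adm.of_subset_compact hA (h.cont.mono hAU) hKc hKA
      (fun x hx h0 => interior_subset (hzA x hx h0)), K \ B, g, hKc, hKA, hzA, hg, ?_,
      hr.mono sdiff_subset, rfl⟩
    intro x hx
    refine hc x ?_
    rw [hKc.isClosed.frontier_eq] at hx
    rw [hK.isClosed.frontier_eq]
    exact ⟨hx.1.1, fun hi => hx.2 (hint x (hKA hx.1) hi)⟩
  obtain ⟨aU, dU⟩ := key U V hU hV hd rfl
  obtain ⟨aV, dV⟩ := key V U hV hU hd.symm (union_comm U V)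
  rw [deg_eq_of_isDeg aU dU, deg_eq_of_isDeg aV dV, ← hn]
  have hfin := finite_zeros hg hK hr
  have hset : K ∩ g ⁻¹' {0} = ((K \ V) ∩ g ⁻¹' {0}) ∪ ((K \ U) ∩ g ⁻¹' {0}) := by
    ext x
    constructor
    · rintro ⟨hxK, h0⟩
      rcases hKU hxK with h1 | h1
      · exact Or.inl ⟨⟨hxK, fun hb => (disjoint_left.1 hd) h1 hb⟩, h0⟩
      · exact Or.inr ⟨⟨hxK, fun hb => (disjoint_left.1 hd) hb h1⟩, h0⟩
    · rintro (⟨hxK, h0⟩ | ⟨hxK, h0⟩)
      · exact ⟨hxK.1, h0⟩
      · exact ⟨hxK.1, h0⟩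
  unfold cnt
  rw [hset, finsum_mem_union]
  · rw [disjoint_left]
    rintro x ⟨hx, _⟩ ⟨hx', _⟩
    rcases hKU hx.1 with h1 | h1
    · exact hx'.2 h1
    · exact hx.2 h1
  · exact hfin.subset (fun x hx => ⟨hx.1.1, hx.2⟩)
  · exact hfin.subset (fun x hx => ⟨hx.1.1, hx.2⟩)

/-- Additivity over a finite family of pairwise disjoint open sets containing the zeros. -/
theorem deg_eq_sum {f : E → E} {U : Set E} (h : Adm f U) {ι : Type*} (s : Finset ι)
    (V : ι → Set E) (hV : ∀ i ∈ s, IsOpen (V i)) (hVU : ∀ i ∈ s, V i ⊆ U)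
    (hd : (s : Set ι).PairwiseDisjoint V)
    (hz : ∀ x ∈ U, f x = 0 → ∃ i ∈ s, x ∈ V i) :
    deg f U = ∑ i ∈ s, deg f (V i) := by
  classical
  induction s using Finset.induction_on generalizing U with
  | empty =>
    rw [Finset.sum_empty]
    refine deg_eq_zero h.isOpen h.cont (fun x hx h0 => ?_)
    obtain ⟨i, hi, _⟩ := hz x hx h0
    simp at hi
  | insert a s ha ih =>
    rw [Finset.sum_insert ha]
    have hW : IsOpen (⋃ i ∈ s, V i) :=
      isOpen_biUnion (fun i hi => hV i (Finset.mem_insert_of_mem hi))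
    have hVa : IsOpen (V a) := hV a (Finset.mem_insert_self a s)
    have hdis : Disjoint (V a) (⋃ i ∈ s, V i) := by
      rw [disjoint_iUnion₂_right]
      intro i hi
      refine hd (by simp) (by simp [hi]) ?_
      rintro rfl; exact ha hi
    have hsub : V a ∪ ⋃ i ∈ s, V i ⊆ U := by
      refine union_subset (hVU a (Finset.mem_insert_self a s)) (iUnion₂_subset (fun i hi => ?_))
      exact hVU i (Finset.mem_insert_of_mem hi)
    have hzz : ∀ x ∈ U, f x = 0 → x ∈ V a ∪ ⋃ i ∈ s, V i := by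
      intro x hx h0
      obtain ⟨i, hi, hxi⟩ := hz x hx h0
      rw [Finset.mem_insert] at hi
      rcases hi with rfl | hi
      · exact Or.inl hxi
      · exact Or.inr (mem_iUnion₂.2 ⟨i, hi, hxi⟩)
    have hadm2 := h.mono (hVa.union hW) hsub hzz
    rw [← deg_excision h (hVa.union hW) hsub hzz, deg_union hVa hW hdis hadm2]
    congr 1
    refine ih ?_ (fun i hi => hV i (Finset.mem_insert_of_mem hi))
      (fun i hi => subset_biUnion_of_mem (u := V) hi)
      (hd.subset (by simp)) (fun x hx _ => ?_)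
    · -- admissibility on the union of the rest
      refine ⟨hW, hadm2.cont.mono subset_union_right, ?_⟩
      have : (⋃ i ∈ s, V i) ∩ f ⁻¹' {0} = ((V a ∪ ⋃ i ∈ s, V i) ∩ f ⁻¹' {0}) \ V a := by
        ext x
        constructor
        · rintro ⟨hx, h0⟩
          exact ⟨⟨Or.inr hx, h0⟩, fun hxa => (disjoint_left.1 hdis) hxa hx⟩
        · rintro ⟨⟨hx | hx, h0⟩, hxa⟩
          · exact absurd hx hxa
          · exact ⟨hx, h0⟩
      rw [this]
      exact hadm2.comp.diff hVa
    · obtain ⟨i, hi, hxi⟩ := mem_iUnion₂.1 hx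
      exact ⟨i, hi, hxi⟩

end Pool.Agent.Deg47
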