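import Pool.Agent.Lib_helper47.Deg.Null

/-! # Degree library, part 2: smoothing kernels and homotopy invariance of the degree integral -/

set_option autoImplicit false

open MeasureTheory Set Metric Filter Topology

namespace Pool.Agent.Deg47

/-- Smooth step function, `0` for `t ≤ -ε`, `1` for `t ≥ ε`. -/
noncomputable def stp (ε t : ℝ) : ℝ := Real.smoothTransition ((t + ε) / (2 * ε))

/-- Its derivative, a bump function of integral one. -/
noncomputable def bmp (ε t : ℝ) : ℝ := deriv (stp ε) t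

theorem stp_contDiff (ε : ℝ) : ContDiff ℝ 2 (stp ε) := by
  unfold stp
  refine (Real.smoothTransition.contDiff (n := 2)).comp ?_
  fun_prop

theorem stp_hasDerivAt (ε t : ℝ) : HasDerivAt (stp ε) (bmp ε t) t :=
  ((stp_contDiff ε).differentiable two_ne_zero t).hasDerivAt

theorem bmp_continuous (ε : ℝ) : Continuous (bmp ε) :=
  (stp_contDiff ε).continuous_deriv (by norm_num)

theorem stp_eq_zero {ε t : ℝ} (hε : 0 < ε) (h : t ≤ -ε) : stp ε t = 0 := by
  unfold stp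
  apply Real.smoothTransition.zero_of_nonpos
  apply div_nonpos_of_nonpos_of_nonneg <;> linarith

theorem stp_eq_one {ε t : ℝ} (hε : 0 < ε) (h : ε ≤ t) : stp ε t = 1 := by
  unfold stp
  apply Real.smoothTransition.one_of_one_le
  rw [le_div_iff₀ (by linarith)]
  linarith

theorem bmp_eq_zero {ε t : ℝ} (hε : 0 < ε) (h : ε < |t|) : bmp ε t = 0 := by
  rcases lt_abs.1 h with h | h
  · have : stp ε =ᶠ[𝓝 t] fun _ => (1 : ℝ) := by
      filter_upwards [lt_mem_nhds h] with s hs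
      exact stp_eq_one hε hs.le
    unfold bmp
    rw [this.deriv_eq]; simp
  · have : stp ε =ᶠ[𝓝 t] fun _ => (0 : ℝ) := by
      filter_upwards [gt_mem_nhds (show t < -ε by linarith)] with s hs
      exact stp_eq_zero hε (le_of_lt hs)
    unfold bmp
    rw [this.deriv_eq]; simp

theorem integral_bmp {ε : ℝ} (hε : 0 < ε) : ∫ t, bmp ε t = 1 := by
  have h1 : ∫ t, bmp ε t = ∫ t in (-(2 * ε))..(2 * ε), bmp ε t := by
    rw [intervalIntegral.integral_of_le (by linarith)]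
    symm
    apply setIntegral_eq_integral_of_forall_compl_eq_zero
    intro t ht
    apply bmp_eq_zero hε
    rw [mem_Ioc, not_and_or, not_lt, not_le] at ht
    rcases ht with ht | ht
    · rw [lt_abs]; right; linarith
    · rw [lt_abs]; left; linarith
  rw [h1]
  have h2 := intervalIntegral.integral_eq_sub_of_hasDerivAt (a := -(2 * ε)) (b := 2 * ε)
    (fun t _ => stp_hasDerivAt ε t) ((bmp_continuous ε).intervalIntegrable _ _)
  rw [h2, stp_eq_one hε (by linarith), stp_eq_zero hε (by linarith)]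
  norm_num

variable {ι : Type*} [Fintype ι]

/-- Product kernel on `ι → ℝ`. -/
noncomputable def ker (ε : ℝ) (y : ι → ℝ) : ℝ := ∏ i, bmp ε (y i)

theorem ker_continuous (ε : ℝ) : Continuous (ker ε : (ι → ℝ) → ℝ) := by
  unfold ker
  exact continuous_finsetProd _ (fun i _ => (bmp_continuous ε).comp (continuous_apply i))

theorem ker_eq_zero {ε : ℝ} (hε : 0 < ε) {y : ι → ℝ} (h : ε < ‖y‖) : ker ε y = 0 := by
  by_contra hne
  have : ‖y‖ ≤ ε := by
    refine (pi_norm_le_iff_of_nonneg hε.le).2 (fun i => ?_)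
    by_contra hi
    push Not at hi
    rw [Real.norm_eq_abs] at hi
    exact hne (Finset.prod_eq_zero (Finset.mem_univ i) (bmp_eq_zero hε hi))
  linarith

theorem integral_ker {ε : ℝ} (hε : 0 < ε) : ∫ y : ι → ℝ, ker ε y = 1 := by
  unfold ker
  rw [integral_fintype_prod_volume_eq_prod (f := fun _ t => bmp ε t)]
  simp [integral_bmp hε]

/-- Componentwise step function. -/
noncomputable def stpv (ε : ℝ) (g : (ι → ℝ) → (ι → ℝ)) (x : ι → ℝ) : ι → ℝ :=
  fun i => stp ε (g x i)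

theorem stpv_contDiff {ε : ℝ} {g : (ι → ℝ) → (ι → ℝ)} (hg : ContDiff ℝ 1 g) :
    ContDiff ℝ 1 (stpv ε g) := by
  unfold stpv
  rw [contDiff_pi]
  intro i
  exact ((stp_contDiff ε).of_le (by norm_num)).comp ((contDiff_pi.1 hg) i)

theorem det_fderiv_stpv {ε : ℝ} {g : (ι → ℝ) → (ι → ℝ)} (hg : ContDiff ℝ 1 g) (x : ι → ℝ) :
    (fderiv ℝ (stpv ε g) x).det = ker ε (g x) * (fderiv ℝ g x).det := by
  classical
  have hd : HasFDerivAt (stpv ε g)
      (ContinuousLinearMap.pi fun i => bmp ε (g x i) •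
        ((ContinuousLinearMap.proj i : (ι → ℝ) →L[ℝ] ℝ).comp (fderiv ℝ g x))) x := by
    rw [hasFDerivAt_pi]
    intro i
    have h1 : HasFDerivAt (fun y => g y i)
        ((ContinuousLinearMap.proj i : (ι → ℝ) →L[ℝ] ℝ).comp (fderiv ℝ g x)) x :=
      (ContinuousLinearMap.proj (R := ℝ) (φ := fun _ : ι => ℝ) i).hasFDerivAt.comp x
        (hg.differentiable one_ne_zero x).hasFDerivAt
    exact (stp_hasDerivAt ε (g x i)).comp_hasFDerivAt x h1
  rw [hd.fderiv]
  have e : ((ContinuousLinearMap.pi fun i => bmp ε (g x i) •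
        ((ContinuousLinearMap.proj i : (ι → ℝ) →L[ℝ] ℝ).comp (fderiv ℝ g x)) :
          (ι → ℝ) →L[ℝ] (ι → ℝ)) : (ι → ℝ) →ₗ[ℝ] (ι → ℝ))
      = (Matrix.toLin' (Matrix.diagonal fun i => bmp ε (g x i))) ∘ₗ
        ((fderiv ℝ g x : (ι → ℝ) →L[ℝ] (ι → ℝ)) : (ι → ℝ) →ₗ[ℝ] (ι → ℝ)) := by
    ext v i
    simp [Matrix.mulVec_diagonal]
  unfold ContinuousLinearMap.det
  rw [e, LinearMap.det_comp, LinearMap.det_toLin', Matrix.det_diagonal]
  rfl

/-- The degree integral. -/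
noncomputable def degInt (g : (ι → ℝ) → (ι → ℝ)) (K : Set (ι → ℝ)) (ε : ℝ) : ℝ :=
  ∫ x in K, ker ε (g x) * (fderiv ℝ g x).det

theorem exists_cutoff {E : Type*} [NormedAddCommGroup E] [NormedSpace ℝ E] [FiniteDimensional ℝ E]
    {S K : Set E} (hS : IsClosed S) (hSK : S ⊆ interior K) :
    ∃ χ : E → ℝ, ContDiff ℝ 1 χ ∧ (∀ᶠ x in 𝓝ˢ S, χ x = 1) ∧ (∀ x ∉ K, χ x = 0) ∧
      ∀ x, χ x ∈ Icc (0 : ℝ) 1 := by
  obtain ⟨f, h1, h2, h3⟩ := exists_contMDiffMap_one_nhds_of_subset_interior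
    (n := 1) (modelWithCornersSelf ℝ E) hS hSK
  exact ⟨f, f.contMDiff.contDiff, h1, h2, h3⟩

/-- Homotopy invariance of the degree integral. -/
theorem degInt_eq_of_segment {g₀ g₁ : (ι → ℝ) → (ι → ℝ)} (h0 : ContDiff ℝ 1 g₀)
    (h1 : ContDiff ℝ 1 g₁) {K : Set (ι → ℝ)} (hK : IsCompact K)
    (hseg : ∀ x ∈ frontier K, ∀ s ∈ Icc (0 : ℝ) 1, (1 - s) • g₀ x + s • g₁ x ≠ 0) :
    ∃ ε₀ > 0, ∀ ε, 0 < ε → ε < ε₀ → degInt g₀ K ε = degInt g₁ K ε := by
  classical
  -- the zero set of the homotopy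
  obtain ⟨H, hH⟩ : ∃ H : ℝ × (ι → ℝ) → (ι → ℝ), H = fun p => (1 - p.1) • g₀ p.2 + p.1 • g₁ p.2 :=
    ⟨_, rfl⟩
  have hHc : Continuous H := by
    rw [hH]
    exact ((continuous_const.sub continuous_fst).smul (h0.continuous.comp continuous_snd)).add
      (continuous_fst.smul (h1.continuous.comp continuous_snd))
  have hcomp : IsCompact (Icc (0 : ℝ) 1 ×ˢ K) := isCompact_Icc.prod hK
  obtain ⟨S, hS⟩ : ∃ S : Set (ι → ℝ), S = Prod.snd '' ((Icc (0 : ℝ) 1 ×ˢ K) ∩ H ⁻¹' {0}) :=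
    ⟨_, rfl⟩
  have hScomp : IsCompact S := by
    rw [hS]
    exact (hcomp.inter_right (isClosed_singleton.preimage hHc)).image continuous_snd
  have hSint : S ⊆ interior K := by
    rw [hS]
    rintro x ⟨⟨s, y⟩, ⟨⟨hs, hy⟩, h0'⟩, rfl⟩
    by_contra hnot
    simp only at hnot hy hs
    have hfr : y ∈ frontier K := by
      rw [hK.isClosed.frontier_eq]; exact ⟨hy, hnot⟩
    rw [hH] at h0'
    exact hseg y hfr s hs h0'
  obtain ⟨χ, hχd, hχ1, hχ0, hχI⟩ := exists_cutoff hScomp.isClosed hSint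
  rw [eventually_nhdsSet_iff_exists] at hχ1
  obtain ⟨O, hO, hSO, hOχ⟩ := hχ1
  -- away from `O` the homotopy is bounded below
  have hcomp2 : IsCompact (Icc (0 : ℝ) 1 ×ˢ (K \ O)) := isCompact_Icc.prod (hK.diff hO)
  obtain ⟨δ, hδ, hδb⟩ : ∃ δ > 0, ∀ p ∈ Icc (0 : ℝ) 1 ×ˢ (K \ O), δ ≤ ‖H p‖ := by
    rcases (Icc (0 : ℝ) 1 ×ˢ (K \ O)).eq_empty_or_nonempty with he | hne
    · exact ⟨1, one_pos, fun p hp => by rw [he] at hp; exact absurd hp (notMem_empty p)⟩
    · obtain ⟨p, hp, hmin⟩ := hcomp2.exists_isMinOn hne hHc.norm.continuousOn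
      refine ⟨‖H p‖, ?_, fun p' hp' => hmin hp'⟩
      rw [gt_iff_lt, norm_pos_iff]
      intro h0'
      refine hp.2.2 (hSO ?_)
      rw [hS]
      exact ⟨p, ⟨⟨hp.1, hp.2.1⟩, h0'⟩, rfl⟩
  refine ⟨δ, hδ, fun ε hε hεδ => ?_⟩
  obtain ⟨gt, hgt⟩ : ∃ gt : (ι → ℝ) → (ι → ℝ), gt = fun x => g₀ x + χ x • (g₁ x - g₀ x) :=
    ⟨_, rfl⟩
  have hgtd : ContDiff ℝ 1 gt := by
    rw [hgt]; exact h0.add (hχd.smul (h1.sub h0))
  have hgtH : ∀ x, gt x = H (χ x, x) := by
    intro x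
    rw [hgt, hH]; simp only; rw [smul_sub, sub_smul, one_smul]; abel
  -- step 1: `g₀` and `gt`
  have s1 : degInt gt K ε = degInt g₀ K ε := by
    unfold degInt
    have e : ∀ g : (ι → ℝ) → (ι → ℝ), ContDiff ℝ 1 g →
        ∫ x in K, ker ε (g x) * (fderiv ℝ g x).det = ∫ x in K, (fderiv ℝ (stpv ε g) x).det := by
      intro g hg
      refine setIntegral_congr_fun hK.measurableSet (fun x _ => ?_)
      rw [det_fderiv_stpv hg]
    rw [e gt hgtd, e g₀ h0]
    refine setIntegral_det_eq volume (stpv_contDiff h0) (stpv_contDiff hgtd) hK (fun x hx => ?_)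
    unfold stpv
    rw [hgt]
    simp only [hχ0 x hx, zero_smul, add_zero]
  -- step 2: `g₁` and `gt`
  have s2 : degInt gt K ε = degInt g₁ K ε := by
    unfold degInt
    refine setIntegral_congr_fun hK.measurableSet (fun x hx => ?_)
    by_cases hxO : x ∈ O
    · have hev : gt =ᶠ[𝓝 x] g₁ := by
        filter_upwards [hO.mem_nhds hxO] with y hy
        rw [hgt]; simp only; rw [hOχ y hy, one_smul]; abel
      rw [hev.fderiv_eq, hev.self_of_nhds]
    · have a1 : ε < ‖gt x‖ := by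
        rw [hgtH]
        exact lt_of_lt_of_le hεδ (hδb (χ x, x) ⟨hχI x, hx, hxO⟩)
      have a2 : ε < ‖g₁ x‖ := by
        have := hδb (1, x) ⟨⟨zero_le_one, le_rfl⟩, hx, hxO⟩
        rw [hH] at this
        simp only [sub_self, zero_smul, one_smul, zero_add] at this
        exact lt_of_lt_of_le hεδ this
      rw [ker_eq_zero hε a1, ker_eq_zero hε a2, zero_mul, zero_mul]
  rw [← s1, s2]

end Pool.Agent.Deg47
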