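import Pool.Agent.Lib_helper47.Deg.Local

/-! # Degree library, part 7: changes of variables and products -/

set_option autoImplicit false

open MeasureTheory Set Metric Filter Topology Asymptotics

namespace Pool.Agent.Deg47

variable {E : Type*} [NormedAddCommGroup E] [NormedSpace ℝ E] [FiniteDimensional ℝ E]
variable {F : Type*} [NormedAddCommGroup F] [NormedSpace ℝ F] [FiniteDimensional ℝ F]

/-- Degree of a `C^1` map with regular zeros. -/
theorem deg_eq_cnt {g : E → E} (hg : ContDiff ℝ 1 g) {K U : Set E} (hK : IsCompact K)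
    (hU : IsOpen U) (hKU : K ⊆ U) (hz : ∀ x ∈ U, g x = 0 → x ∈ interior K) (hr : RegOn g K) :
    deg g U = cnt g K := by
  refine deg_eq_of_isDeg (Adm.of_subset_compact hU hg.continuous.continuousOn hK hKU
    (fun x hx h0 => interior_subset (hz x hx h0))) ⟨K, g, hK, hKU, hz, hg, fun x hx => ?_, hr, rfl⟩
  rw [sub_self, norm_zero, norm_pos_iff]
  intro h0
  rw [hK.isClosed.frontier_eq] at hx
  exact hx.2 (hz x (hKU hx.1) h0)

/-- Segment condition off the interior of `K` gives equality of degrees. -/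
theorem deg_eq_of_segment' {f g : E → E} {U K : Set E} (hU : IsOpen U) (hf : ContinuousOn f U)
    (hg : ContinuousOn g U) (hK : IsCompact K) (hKU : K ⊆ U)
    (hseg : ∀ x ∈ U \ interior K, ∀ s ∈ Icc (0 : ℝ) 1, (1 - s) • f x + s • g x ≠ 0) :
    Adm f U ∧ Adm g U ∧ deg f U = deg g U := by
  have hzf : ∀ x ∈ U, f x = 0 → x ∈ interior K := by
    intro x hx h0
    by_contra hcon
    exact hseg x ⟨hx, hcon⟩ 0 ⟨le_rfl, zero_le_one⟩ (by simp [h0])
  have hzg : ∀ x ∈ U, g x = 0 → x ∈ interior K := by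
    intro x hx h0
    by_contra hcon
    exact hseg x ⟨hx, hcon⟩ 1 ⟨zero_le_one, le_rfl⟩ (by simp [h0])
  have af := Adm.of_subset_compact hU hf hK hKU (fun x hx h0 => interior_subset (hzf x hx h0))
  have ag := Adm.of_subset_compact hU hg hK hKU (fun x hx h0 => interior_subset (hzg x hx h0))
  refine ⟨af, ag, deg_eq_of_segment af ag hK hKU hzf hzg (fun x hx s hs => ?_)⟩
  rw [hK.isClosed.frontier_eq] at hx
  exact hseg x ⟨hKU hx.1, hx.2⟩ s hs

omit [FiniteDimensional ℝ E] [FiniteDimensional ℝ F] in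
/-- Admissibility for conjugates. -/
theorem Adm.conj {f : E → E} {U : Set E} (h : Adm f U) (L : E ≃L[ℝ] F) :
    Adm (conj L f) (L '' U) := by
  refine ⟨L.toHomeomorph.isOpenMap _ h.isOpen, ?_, ?_⟩
  · unfold Deg47.conj
    refine L.continuous.comp_continuousOn (h.cont.comp L.symm.continuous.continuousOn ?_)
    rintro _ ⟨x, hx, rfl⟩
    rw [L.symm_apply_apply]; exact hx
  · rw [zeros_conj]; exact h.comp.image L.continuous

/-- Degree is invariant under linear conjugation. -/
theorem deg_conj {f : E → E} {U : Set E} (h : Adm f U) (L : E ≃L[ℝ] F) :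
    deg (conj L f) (L '' U) = deg f U := by
  obtain ⟨K, U', g, hK, hU', hKU', hU'U, hzf, hg, hgr, hclose, hzg⟩ := exists_approx_nice h
  have hopen : ∀ A : Set E, IsOpen A → IsOpen (L '' A) := fun A hA => L.toHomeomorph.isOpenMap _ hA
  have hint : interior (L '' K) = L '' interior K := (L.toHomeomorph.image_interior K).symm
  have hseg : ∀ x ∈ U' \ interior K, ∀ s ∈ Icc (0 : ℝ) 1, (1 - s) • f x + s • g x ≠ 0 := by
    intro x hx s hs
    have h1 := hclose x hx
    refine segment_ne_zero (c := f x) ?_ h1 hs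
    rw [sub_self, norm_zero]
    exact lt_of_le_of_lt (norm_nonneg _) h1
  have e1 : deg f U = cnt g K := by
    rw [← deg_excision h hU' hU'U (fun x hx h0 => hKU' (interior_subset (hzf x hx h0))),
      (deg_eq_of_segment' hU' (h.cont.mono hU'U) hg.continuous.continuousOn hK hKU' hseg).2.2,
      deg_eq_cnt hg hK hU' hKU' hzg (fun x _ h0 => hgr x h0)]
  have hc' := h.conj L
  have e2 : deg (conj L f) (L '' U) = cnt (conj L g) (L '' K) := by
    rw [← deg_excision hc' (hopen _ hU') (image_mono hU'U) ?_,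
      (deg_eq_of_segment' (K := L '' K) (hopen _ hU') (hc'.cont.mono (image_mono hU'U))
        (conj_contDiff L hg).continuous.continuousOn
        (hK.image L.continuous) (image_mono hKU') ?_).2.2,
      deg_eq_cnt (conj_contDiff L hg) (hK.image L.continuous) (hopen _ hU') (image_mono hKU') ?_
        (regOn_conj L hg (fun x _ h0 => hgr x h0))]
    · rintro _ ⟨x, hx, rfl⟩ h0
      rw [hint]
      refine ⟨x, hzg x hx ?_, rfl⟩
      unfold Deg47.conj at h0
      rw [L.symm_apply_apply] at h0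
      exact (map_eq_zero_iff L L.injective).1 h0
    · rintro _ ⟨⟨x, hx, rfl⟩, hxn⟩ s hs h0
      rw [hint] at hxn
      refine hseg x ⟨hx, fun hi => hxn ⟨x, hi, rfl⟩⟩ s hs ?_
      unfold Deg47.conj at h0
      rw [L.symm_apply_apply, ← map_smul, ← map_smul, ← map_add] at h0
      exact (map_eq_zero_iff L L.injective).1 h0
    · rintro _ ⟨x, hx, rfl⟩ h0
      refine ⟨x, hKU' (interior_subset (hzf x hx ?_)), rfl⟩
      unfold Deg47.conj at h0
      rw [L.symm_apply_apply] at h0
      exact (map_eq_zero_iff L L.injective).1 h0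
  rw [e1, e2, cnt_conj L hg]

/-- Left composition with a linear isomorphism. -/
theorem deg_comp_left {f : E → E} {U : Set E} (h : Adm f U) (A : E →L[ℝ] E) (hA : A.det ≠ 0) :
    deg (fun x => A (f x)) U = (SignType.sign A.det : ℤ) * deg f U :=
  deg_mul h (M := fun _ => A) continuousOn_const (fun _ _ => hA) (fun _ _ => rfl)

theorem det_equiv_ne_zero (L : E ≃L[ℝ] E) : (L : E →L[ℝ] E).det ≠ 0 := by
  rw [det_ne_zero_iff]; exact L.injective

/-- Right composition with a linear isomorphism. -/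
theorem deg_comp_right {f : E → E} {U : Set E} (h : Adm f U) (L : E ≃L[ℝ] E) :
    deg (fun x => f (L x)) (L ⁻¹' U) = (SignType.sign (L : E →L[ℝ] E).det : ℤ) * deg f U := by
  rw [← deg_comp_left h (L : E →L[ℝ] E) (det_equiv_ne_zero L)]
  have hadm : Adm (fun x => L (f x)) U := by
    refine ⟨h.isOpen, L.continuous.comp_continuousOn h.cont, ?_⟩
    have : U ∩ (fun x => L (f x)) ⁻¹' {0} = U ∩ f ⁻¹' {0} := by
      ext x
      simp only [mem_inter_iff, mem_preimage, mem_singleton_iff, map_eq_zero_iff L L.injective]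
    rw [this]; exact h.comp
  have h1 := deg_conj hadm L.symm
  have h2 : (L.symm '' U) = L ⁻¹' U := L.toEquiv.symm.image_eq_preimage_symm U
  rw [h2] at h1
  have h3 : conj L.symm (fun x => L (f x)) = fun x => f (L x) := by
    funext x
    unfold Deg47.conj
    simp
  rw [h3] at h1
  exact h1

/-- Translations. -/
theorem deg_translate {f : E → E} {U : Set E} (h : Adm f U) (a : E) :
    deg (fun x => f (x + a)) ((fun x => x + a) ⁻¹' U) = deg f U := by
  obtain ⟨K, U', g, hK, hU', hKU', hU'U, hzf, hg, hgr, hclose, hzg⟩ := exists_approx_nice h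
  obtain ⟨T, hT⟩ : ∃ T : E ≃ₜ E, T = Homeomorph.addRight a := ⟨_, rfl⟩
  have hTa : ∀ x, T x = x + a := fun x => by rw [hT]; rfl
  have hpre : ∀ A : Set E, (fun x => x + a) ⁻¹' A = T ⁻¹' A := by
    intro A; ext x; simp only [mem_preimage, hTa]
  have hcont : Continuous fun x : E => x + a := by fun_prop
  have hseg : ∀ x ∈ U' \ interior K, ∀ s ∈ Icc (0 : ℝ) 1, (1 - s) • f x + s • g x ≠ 0 := by
    intro x hx s hs
    have h1 := hclose x hx
    refine segment_ne_zero (c := f x) ?_ h1 hs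
    rw [sub_self, norm_zero]
    exact lt_of_le_of_lt (norm_nonneg _) h1
  have e1 : deg f U = cnt g K := by
    rw [← deg_excision h hU' hU'U (fun x hx h0 => hKU' (interior_subset (hzf x hx h0))),
      (deg_eq_of_segment' hU' (h.cont.mono hU'U) hg.continuous.continuousOn hK hKU' hseg).2.2,
      deg_eq_cnt hg hK hU' hKU' hzg (fun x _ h0 => hgr x h0)]
  have hKc : IsCompact (T ⁻¹' K) := T.isCompact_preimage.2 hK
  have hint : interior (T ⁻¹' K) = T ⁻¹' interior K := (T.preimage_interior K).symm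
  have hgc : ContDiff ℝ 1 (fun x => g (x + a)) := hg.comp (contDiff_id.add contDiff_const)
  have hfd : ∀ x, fderiv ℝ (fun x => g (x + a)) x = fderiv ℝ g (x + a) := by
    intro x; exact fderiv_comp_add_right a
  have hadm : Adm (fun x => f (x + a)) (T ⁻¹' U) :=
    Adm.of_subset_compact (h.isOpen.preimage T.continuous)
      (h.cont.comp hcont.continuousOn (fun x hx => by
        rw [mem_preimage, hTa] at hx; exact hx)) hKc
      (preimage_mono (hKU'.trans hU'U)) (fun x hx h0 => by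
        rw [mem_preimage, hTa] at hx ⊢
        exact interior_subset (hzf _ hx h0))
  rw [hpre]
  have e2 : deg (fun x => f (x + a)) (T ⁻¹' U) = cnt (fun x => g (x + a)) (T ⁻¹' K) := by
    rw [← deg_excision hadm (hU'.preimage T.continuous) (preimage_mono hU'U) ?_,
      (deg_eq_of_segment' (K := T ⁻¹' K) (hU'.preimage T.continuous)
        (hadm.cont.mono (preimage_mono hU'U))
        hgc.continuous.continuousOn hKc (preimage_mono hKU') ?_).2.2,
      deg_eq_cnt hgc hKc (hU'.preimage T.continuous) (preimage_mono hKU') ?_ ?_]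
    · intro x hx h0
      rw [hint, mem_preimage, hTa]
      rw [mem_preimage, hTa] at hx
      exact hzg _ hx h0
    · intro x _ h0
      rw [hfd]
      exact hgr _ h0
    · rintro x ⟨hx, hxn⟩ s hs h0
      rw [hint, mem_preimage, hTa] at hxn
      rw [mem_preimage, hTa] at hx
      exact hseg _ ⟨hx, hxn⟩ s hs h0
    · intro x hx h0
      rw [mem_preimage, hTa] at hx ⊢
      exact hKU' (interior_subset (hzf _ hx h0))
  rw [e1, e2]
  unfold cnt
  have himg : (K ∩ g ⁻¹' {0}) = T '' ((T ⁻¹' K) ∩ (fun x => g (x + a)) ⁻¹' {0}) := by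
    ext y
    constructor
    · rintro ⟨hy, h0⟩
      refine ⟨y - a, ⟨?_, ?_⟩, ?_⟩
      · rw [mem_preimage, hTa, sub_add_cancel]; exact hy
      · rw [mem_preimage, sub_add_cancel]; exact h0
      · rw [hTa, sub_add_cancel]
    · rintro ⟨x, ⟨hx, h0⟩, rfl⟩
      refine ⟨hx, ?_⟩
      rw [hTa]; exact h0
  rw [himg, finsum_mem_image T.injective.injOn]
  refine finsum_mem_congr rfl (fun x _ => ?_)
  unfold sgnDet
  rw [hfd, hTa]

/-- Product formula. -/
theorem deg_prod {f : E → E} {g : F → F} {U : Set E} {V : Set F} (hf : Adm f U) (hg : Adm g V) :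
    deg (fun p : E × F => (f p.1, g p.2)) (U ×ˢ V) = deg f U * deg g V := by
  obtain ⟨K, U', f', hK, hU', hKU', hU'U, hzf, hf', hfr', hclosef, hzf'⟩ := exists_approx_nice hf
  obtain ⟨L, V', g', hL, hV', hLV', hV'V, hzg, hg', hgr', hcloseg, hzg'⟩ := exists_approx_nice hg
  have hsegf : ∀ x ∈ U' \ interior K, ∀ s ∈ Icc (0 : ℝ) 1, (1 - s) • f x + s • f' x ≠ 0 := by
    intro x hx s hs
    have h1 := hclosef x hx
    refine segment_ne_zero (c := f x) ?_ h1 hs
    rw [sub_self, norm_zero]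
    exact lt_of_le_of_lt (norm_nonneg _) h1
  have hsegg : ∀ x ∈ V' \ interior L, ∀ s ∈ Icc (0 : ℝ) 1, (1 - s) • g x + s • g' x ≠ 0 := by
    intro x hx s hs
    have h1 := hcloseg x hx
    refine segment_ne_zero (c := g x) ?_ h1 hs
    rw [sub_self, norm_zero]
    exact lt_of_le_of_lt (norm_nonneg _) h1
  have ef : deg f U = deg f' U' := by
    rw [← deg_excision hf hU' hU'U (fun x hx h0 => hKU' (interior_subset (hzf x hx h0))),
      (deg_eq_of_segment' hU' (hf.cont.mono hU'U) hf'.continuous.continuousOn hK hKU' hsegf).2.2]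
  have eg : deg g V = deg g' V' := by
    rw [← deg_excision hg hV' hV'V (fun x hx h0 => hLV' (interior_subset (hzg x hx h0))),
      (deg_eq_of_segment' hV' (hg.cont.mono hV'V) hg'.continuous.continuousOn hL hLV' hsegg).2.2]
  have hcfg : ContinuousOn (fun p : E × F => (f p.1, g p.2)) (U ×ˢ V) :=
    (hf.cont.comp continuousOn_fst (fun p hp => hp.1)).prodMk
      (hg.cont.comp continuousOn_snd (fun p hp => hp.2))
  have hKL := hK.prod hL
  have hKLUV : K ×ˢ L ⊆ U' ×ˢ V' := prod_mono hKU' hLV'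
  have hadm : Adm (fun p : E × F => (f p.1, g p.2)) (U ×ˢ V) := by
    refine Adm.of_subset_compact (hf.isOpen.prod hg.isOpen) hcfg hKL
      (hKLUV.trans (prod_mono hU'U hV'V)) ?_
    intro p hp h0
    rw [Prod.mk_eq_zero] at h0
    exact ⟨interior_subset (hzf _ hp.1 h0.1), interior_subset (hzg _ hp.2 h0.2)⟩
  have e1 : deg (fun p : E × F => (f p.1, g p.2)) (U ×ˢ V)
      = deg (fun p : E × F => (f' p.1, g' p.2)) (U' ×ˢ V') := by
    rw [← deg_excision hadm (hU'.prod hV') (prod_mono hU'U hV'V) ?_]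
    · refine (deg_eq_of_segment' (K := K ×ˢ L) (hU'.prod hV')
        (hcfg.mono (prod_mono hU'U hV'V)) ?_ hKL hKLUV ?_).2.2
      · exact ((hf'.continuous.comp continuous_fst).prodMk
          (hg'.continuous.comp continuous_snd)).continuousOn
      · rintro ⟨x, y⟩ ⟨⟨hx, hy⟩, hn⟩ s hs h0
        rw [interior_prod_eq] at hn
        simp only [Prod.smul_mk, Prod.mk_add_mk, Prod.mk_eq_zero] at h0
        by_cases hxK : x ∈ interior K
        · by_cases hyL : y ∈ interior L
          · exact hn ⟨hxK, hyL⟩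
          · exact hsegg y ⟨hy, hyL⟩ s hs h0.2
        · exact hsegf x ⟨hx, hxK⟩ s hs h0.1
    · intro p hp h0
      rw [Prod.mk_eq_zero] at h0
      exact ⟨hKU' (interior_subset (hzf _ hp.1 h0.1)), hLV' (interior_subset (hzg _ hp.2 h0.2))⟩
  rw [e1, ef, eg]
  have hfinf : (U' ∩ f' ⁻¹' {0}).Finite :=
    (finite_zeros hf' hK (fun x _ h0 => hfr' x h0)).subset
      (fun x hx => ⟨interior_subset (hzf' x hx.1 hx.2), hx.2⟩)
  have hfing : (V' ∩ g' ⁻¹' {0}).Finite :=
    (finite_zeros hg' hL (fun x _ h0 => hgr' x h0)).subset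
      (fun x hx => ⟨interior_subset (hzg' x hx.1 hx.2), hx.2⟩)
  have hmemf : ∀ x, x ∈ hfinf.toFinset ↔ x ∈ U' ∧ f' x = 0 := by
    intro x; rw [Set.Finite.mem_toFinset]; rfl
  have hmemg : ∀ x, x ∈ hfing.toFinset ↔ x ∈ V' ∧ g' x = 0 := by
    intro x; rw [Set.Finite.mem_toFinset]; rfl
  rw [deg_eq_sum_sign hU' hf'.continuous.continuousOn hfinf.toFinset
    (fun x hx => ((hmemf x).1 hx).1) (fun x hx => ((hmemf x).1 hx).2)
    (fun x hx h0 => (hmemf x).2 ⟨hx, h0⟩) (fun x => fderiv ℝ f' x)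
    (fun x _ => (hf'.differentiable one_ne_zero x).hasFDerivAt)
    (fun x hx => hfr' x ((hmemf x).1 hx).2)]
  rw [deg_eq_sum_sign hV' hg'.continuous.continuousOn hfing.toFinset
    (fun x hx => ((hmemg x).1 hx).1) (fun x hx => ((hmemg x).1 hx).2)
    (fun x hx h0 => (hmemg x).2 ⟨hx, h0⟩) (fun x => fderiv ℝ g' x)
    (fun x _ => (hg'.differentiable one_ne_zero x).hasFDerivAt)
    (fun x hx => hgr' x ((hmemg x).1 hx).2)]
  have hdetprod : ∀ (A : E →L[ℝ] E) (B : F →L[ℝ] F), (A.prodMap B).det = A.det * B.det := by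
    intro A B
    unfold ContinuousLinearMap.det
    exact LinearMap.det_prodMap (A : E →ₗ[ℝ] E) (B : F →ₗ[ℝ] F)
  have hmemp : ∀ p, p ∈ hfinf.toFinset ×ˢ hfing.toFinset ↔
      (p.1 ∈ U' ∧ f' p.1 = 0) ∧ (p.2 ∈ V' ∧ g' p.2 = 0) := by
    intro p; rw [Finset.mem_product, hmemf, hmemg]
  have hcc : ContinuousOn (fun p : E × F => (f' p.1, g' p.2)) (U' ×ˢ V') :=
    ((hf'.continuous.comp continuous_fst).prodMk
          (hg'.continuous.comp continuous_snd)).continuousOn
  rw [deg_eq_sum_sign (hU'.prod hV') hcc (hfinf.toFinset ×ˢ hfing.toFinset)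
    (fun p hp => ⟨((hmemp p).1 hp).1.1, ((hmemp p).1 hp).2.1⟩)
    (fun p hp => by
      rw [Prod.mk_eq_zero]
      exact ⟨((hmemp p).1 hp).1.2, ((hmemp p).1 hp).2.2⟩)
    (fun p hp h0 => by
      rw [Prod.mk_eq_zero] at h0
      exact (hmemp p).2 ⟨⟨hp.1, h0.1⟩, ⟨hp.2, h0.2⟩⟩)
    (fun p => (fderiv ℝ f' p.1).prodMap (fderiv ℝ g' p.2)) ?_ ?_]
  · rw [Finset.sum_mul_sum, ← Finset.sum_product']
    refine Finset.sum_congr rfl (fun p _ => ?_)
    rw [hdetprod, sign_mul]
    push_cast
    rfl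
  · intro p _
    exact HasFDerivAt.prodMap p (hf'.differentiable one_ne_zero p.1).hasFDerivAt
      (hg'.differentiable one_ne_zero p.2).hasFDerivAt
  · intro p hp
    rw [hdetprod]
    exact mul_ne_zero (hfr' _ ((hmemp p).1 hp).1.2) (hgr' _ ((hmemp p).1 hp).2.2)

end Pool.Agent.Deg47
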