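import Mathlib

/-! # Degree library, part 1: the determinant is a null Lagrangian (for `C^1` maps)

If two `C^1` maps `G₀ G₁ : E → E` agree outside a compact set, then the integrals of their Jacobian
determinants agree. -/

set_option autoImplicit false

open MeasureTheory Set Metric Filter Topology Polynomial

namespace Pool.Agent.Deg47

variable {E : Type*} [NormedAddCommGroup E] [NormedSpace ℝ E] [FiniteDimensional ℝ E]

/-- Universal interpolation coefficients. -/
theorem exists_interp (n : ℕ) (L : ℝ) :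
    ∃ (lam c : ℕ → ℝ), (∀ k, L < lam k) ∧
      ∀ p : ℝ[X], p.natDegree ≤ n →
        p.eval 0 = ∑ k ∈ Finset.range (n + 1), c k * p.eval (lam k) := by
  classical
  obtain ⟨lam, hlam⟩ : ∃ lam : ℕ → ℝ, lam = fun k : ℕ => L + 1 + (k : ℝ) := ⟨_, rfl⟩
  obtain ⟨c, hc⟩ : ∃ c : ℕ → ℝ,
    c = fun k => (Lagrange.basis (Finset.range (n + 1)) lam k).eval 0 := ⟨_, rfl⟩
  refine ⟨lam, c, ?_, ?_⟩
  · intro k
    rw [hlam]
    have : (0 : ℝ) ≤ k := Nat.cast_nonneg k
    simp only
    linarith
  · intro p hp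
    have hinj : Set.InjOn lam (Finset.range (n + 1)) := by
      intro a _ b _ h
      rw [hlam] at h
      simp only [add_right_inj, Nat.cast_inj] at h
      exact h
    have hdeg : p.degree < (Finset.range (n + 1)).card := by
      rw [Finset.card_range]
      refine lt_of_le_of_lt Polynomial.degree_le_natDegree ?_
      exact_mod_cast Nat.lt_succ_of_le hp
    have h := Lagrange.eq_interpolate hinj hdeg
    conv_lhs => rw [h]
    rw [Lagrange.interpolate_apply, eval_finsetSum]
    refine Finset.sum_congr rfl (fun k _ => ?_)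
    rw [eval_mul, eval_C, hc]
    ring

/-- `det M` is a universal linear combination of `det (λ_k + M)`. -/
theorem exists_det_interp (L : ℝ) :
    ∃ (N : ℕ) (lam c : ℕ → ℝ), (∀ k, L < lam k) ∧
      ∀ M : E →L[ℝ] E,
        M.det = ∑ k ∈ Finset.range N, c k * (lam k • ContinuousLinearMap.id ℝ E + M).det := by
  obtain ⟨lam, c, h1, h2⟩ := exists_interp (Module.finrank ℝ E) L
  refine ⟨Module.finrank ℝ E + 1, lam, c, h1, fun M => ?_⟩
  have hev : ∀ t : ℝ, (LinearMap.charpoly (-(M : E →ₗ[ℝ] E))).eval t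
      = (t • ContinuousLinearMap.id ℝ E + M).det := by
    intro t
    rw [LinearMap.eval_charpoly]
    unfold ContinuousLinearMap.det
    congr 1
    ext x
    simp [Module.algebraMap_end_apply]
  have h3 := h2 (LinearMap.charpoly (-(M : E →ₗ[ℝ] E))) (by rw [LinearMap.charpoly_natDegree])
  rw [hev] at h3
  simp only [hev] at h3
  rw [← h3, zero_smul, zero_add]

/-- `λ id + M` has positive determinant if `‖M‖ < λ`. -/
theorem det_smul_id_add_pos {L : ℝ} {M : E →L[ℝ] E} (hM : ‖M‖ ≤ L) {lam : ℝ} (hl : L < lam) :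
    0 < (lam • ContinuousLinearMap.id ℝ E + M).det := by
  have hL : 0 ≤ L := (norm_nonneg M).trans hM
  have hlam : 0 < lam := lt_of_le_of_lt hL hl
  -- path `lam • id + s • M`
  obtain ⟨d, hd⟩ : ∃ d : ℝ → ℝ, d = fun s => (lam • ContinuousLinearMap.id ℝ E + s • M).det :=
    ⟨_, rfl⟩
  have hcont : Continuous d := by
    rw [hd]
    exact ContinuousLinearMap.continuous_det.comp (by fun_prop)
  have hne : ∀ s ∈ Icc (0 : ℝ) 1, d s ≠ 0 := by
    intro s hs h0
    rw [hd] at h0
    simp only at h0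
    obtain ⟨v, hv, hv0⟩ : ∃ v : E, v ≠ 0 ∧ (lam • ContinuousLinearMap.id ℝ E + s • M) v = 0 := by
      unfold ContinuousLinearMap.det at h0
      have := LinearMap.bot_lt_ker_of_det_eq_zero h0
      obtain ⟨v, hv, hv'⟩ := (Submodule.ne_bot_iff _).1 this.ne'
      exact ⟨v, hv', hv⟩
    have e1 : lam • v = -(s • M v) := by
      have : lam • v + s • M v = 0 := by simpa using hv0
      exact eq_neg_of_add_eq_zero_left this
    have e2 : lam * ‖v‖ = s * ‖M v‖ := by
      have := congrArg norm e1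
      rw [norm_neg, norm_smul, norm_smul, Real.norm_of_nonneg hlam.le, Real.norm_of_nonneg hs.1]
        at this
      exact this
    have e3 : ‖M v‖ ≤ L * ‖v‖ := (M.le_opNorm v).trans (by gcongr)
    have e4 : 0 < ‖v‖ := norm_pos_iff.2 hv
    have e5 : s * ‖M v‖ ≤ 1 * ‖M v‖ := by gcongr; exact hs.2
    nlinarith
  have h0 : 0 < d 0 := by
    rw [hd]
    simp only [zero_smul, add_zero]
    unfold ContinuousLinearMap.det
    rw [ContinuousLinearMap.toLinearMap_smul, ContinuousLinearMap.coe_id, LinearMap.det_smul,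
      LinearMap.det_id, mul_one]
    positivity
  have h1 : d 1 = (lam • ContinuousLinearMap.id ℝ E + M).det := by rw [hd]; simp
  rw [← h1]
  by_contra hcon
  push Not at hcon
  have hiv := intermediate_value_Icc' (zero_le_one' ℝ) hcont.continuousOn
  obtain ⟨s, hs, hs0⟩ := hiv ⟨hcon, h0.le⟩
  exact hne s hs hs0


/-- `λ id + G` is a bijection for `λ` larger than the Lipschitz constant of `G`. -/
theorem bijective_smul_add {G : E → E} {C : NNReal} (hG : LipschitzWith C G) {lam : ℝ}
    (hl : (C : ℝ) < lam) : Function.Bijective (fun x => lam • x + G x) := by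
  have hlam : 0 < lam := lt_of_le_of_lt C.2 hl
  constructor
  · intro x y hxy
    simp only at hxy
    have e1 : lam • (x - y) = G y - G x := by
      rw [smul_sub]
      have : lam • x + G x - (lam • y + G y) = 0 := sub_eq_zero.2 hxy
      rw [← sub_eq_zero]
      rw [← this]; abel
    have e2 : lam * ‖x - y‖ ≤ C * ‖x - y‖ := by
      have := congrArg norm e1
      rw [norm_smul, Real.norm_of_nonneg hlam.le] at this
      rw [this, ← dist_eq_norm (G y), ← dist_eq_norm x, dist_comm x]
      exact hG.dist_le_mul y x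
    by_contra hne
    have : 0 < ‖x - y‖ := norm_pos_iff.2 (sub_ne_zero.2 hne)
    nlinarith
  · intro y
    obtain ⟨T, hT⟩ : ∃ T : E → E, T = fun x => lam⁻¹ • (y - G x) := ⟨_, rfl⟩
    have hTl : LipschitzWith (C / ⟨lam, hlam.le⟩) T := by
      refine LipschitzWith.of_dist_le_mul (fun a b => ?_)
      rw [hT]
      simp only
      rw [dist_smul₀, dist_sub_left, Real.norm_of_nonneg (inv_nonneg.2 hlam.le)]
      have h1 := hG.dist_le_mul a b
      have h2 : ((C / ⟨lam, hlam.le⟩ : NNReal) : ℝ) = C / lam := rfl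
      rw [h2, div_eq_inv_mul, mul_assoc]
      gcongr
    have hc : ContractingWith (C / ⟨lam, hlam.le⟩) T := by
      refine ⟨?_, hTl⟩
      rw [← NNReal.coe_lt_coe]
      change (C : ℝ) / lam < 1
      rwa [div_lt_one hlam]
    have : Nonempty E := ⟨0⟩
    refine ⟨hc.fixedPoint T, ?_⟩
    have hfix := hc.fixedPoint_isFixedPt
    obtain ⟨x, hx⟩ : ∃ x, x = hc.fixedPoint T := ⟨_, rfl⟩
    rw [← hx] at hfix ⊢
    have e : T x = x := hfix
    rw [hT] at e
    simp only at e
    simp only
    have e' : lam • x = y - G x := by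
      rw [← e, smul_inv_smul₀ hlam.ne']
      rw [e]
    rw [e']; abel

section meas

variable [MeasurableSpace E] [BorelSpace E] (μ : Measure E) [μ.IsAddHaarMeasure]

/-- Shifted Jacobians: for `λ` large the integrals of `det (λ + DG)` agree. -/
theorem setIntegral_det_smul_add_eq {G₀ G₁ : E → E} (h0 : ContDiff ℝ 1 G₀) (h1 : ContDiff ℝ 1 G₁)
    {C : NNReal} (l0 : LipschitzWith C G₀) (l1 : LipschitzWith C G₁) {B : Set E}
    (hB : MeasurableSet B) (hout : ∀ x ∉ B, G₁ x = G₀ x) {lam : ℝ} (hl : (C : ℝ) < lam) :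
    ∫ x in B, (lam • ContinuousLinearMap.id ℝ E + fderiv ℝ G₁ x).det ∂μ
      = ∫ x in B, (lam • ContinuousLinearMap.id ℝ E + fderiv ℝ G₀ x).det ∂μ := by
  have key : ∀ G : E → E, ContDiff ℝ 1 G → LipschitzWith C G →
      ∫ x in B, (lam • ContinuousLinearMap.id ℝ E + fderiv ℝ G x).det ∂μ
        = ∫ _ in (fun x => lam • x + G x) '' B, (1 : ℝ) ∂μ := by
    intro G hG hL
    have hd : ∀ x ∈ B, HasFDerivWithinAt (fun x => lam • x + G x)
        (lam • ContinuousLinearMap.id ℝ E + fderiv ℝ G x) B x := by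
      intro x _
      refine HasFDerivAt.hasFDerivWithinAt ?_
      refine HasFDerivAt.add ?_ (hG.differentiable one_ne_zero x).hasFDerivAt
      exact (hasFDerivAt_id x).const_smul lam
    rw [integral_image_eq_integral_abs_det_fderiv_smul μ hB hd
      (bijective_smul_add hL hl).injective.injOn]
    refine setIntegral_congr_fun hB (fun x _ => ?_)
    have hpos := det_smul_id_add_pos (E := E) (L := C) (M := fderiv ℝ G x)
      (norm_fderiv_le_of_lipschitz ℝ hL) hl
    simp only [smul_eq_mul, mul_one]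
    rw [abs_of_pos hpos]
  rw [key G₁ h1 l1, key G₀ h0 l0]
  have himg : (fun x => lam • x + G₁ x) '' B = (fun x => lam • x + G₀ x) '' B := by
    have hc : (fun x => lam • x + G₁ x) '' Bᶜ = (fun x => lam • x + G₀ x) '' Bᶜ := by
      refine Set.image_congr (fun x hx => ?_)
      rw [hout x hx]
    have e1 := Set.image_compl_eq (s := B) (bijective_smul_add l1 hl)
    have e0 := Set.image_compl_eq (s := B) (bijective_smul_add l0 hl)
    rw [e1, e0] at hc
    exact compl_injective hc
  rw [himg]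

omit [FiniteDimensional ℝ E] [MeasurableSpace E] [BorelSpace E] in
theorem continuous_det_fderiv {G : E → E} (hG : ContDiff ℝ 1 G) :
    Continuous fun x => (fderiv ℝ G x).det :=
  ContinuousLinearMap.continuous_det.comp (hG.continuous_fderiv one_ne_zero)

/-- Null-Lagrangian property for compactly supported maps. -/
theorem setIntegral_det_eq_of_lipschitz {G₀ G₁ : E → E} (h0 : ContDiff ℝ 1 G₀)
    (h1 : ContDiff ℝ 1 G₁) {C : NNReal} (l0 : LipschitzWith C G₀) (l1 : LipschitzWith C G₁)
    {B : Set E} (hB : IsCompact B) (hout : ∀ x ∉ B, G₁ x = G₀ x) :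
    ∫ x in B, (fderiv ℝ G₁ x).det ∂μ = ∫ x in B, (fderiv ℝ G₀ x).det ∂μ := by
  obtain ⟨N, lam, c, hlam, hdet⟩ := exists_det_interp (E := E) (C : ℝ)
  have hI : ∀ G : E → E, ContDiff ℝ 1 G →
      ∫ x in B, (fderiv ℝ G x).det ∂μ = ∑ k ∈ Finset.range N,
        c k * ∫ x in B, (lam k • ContinuousLinearMap.id ℝ E + fderiv ℝ G x).det ∂μ := by
    intro G hG
    have e : ∀ x, (fderiv ℝ G x).det = ∑ k ∈ Finset.range N,
        c k * (lam k • ContinuousLinearMap.id ℝ E + fderiv ℝ G x).det := fun x => hdet _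
    simp_rw [e]
    rw [integral_finsetSum]
    · refine Finset.sum_congr rfl (fun k _ => ?_)
      rw [integral_const_mul]
    · intro k _
      refine ContinuousOn.integrableOn_compact hB (Continuous.continuousOn ?_)
      refine continuous_const.mul (ContinuousLinearMap.continuous_det.comp ?_)
      exact continuous_const.add (hG.continuous_fderiv one_ne_zero)
  rw [hI G₁ h1, hI G₀ h0]
  refine Finset.sum_congr rfl (fun k _ => ?_)
  rw [setIntegral_det_smul_add_eq μ h0 h1 l0 l1 hB.measurableSet hout (hlam k)]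

/-- **Null-Lagrangian property**: if two `C^1` maps agree outside a compact set, then their Jacobian
determinants have the same integral over it. -/
theorem setIntegral_det_eq {G₀ G₁ : E → E} (h0 : ContDiff ℝ 1 G₀) (h1 : ContDiff ℝ 1 G₁)
    {B : Set E} (hB : IsCompact B) (hout : ∀ x ∉ B, G₁ x = G₀ x) :
    ∫ x in B, (fderiv ℝ G₁ x).det ∂μ = ∫ x in B, (fderiv ℝ G₀ x).det ∂μ := by
  obtain ⟨th, hth1, hthc, hth⟩ : ∃ th : E → ℝ, (∀ᶠ x in 𝓝ˢ B, th x = 1) ∧
      HasCompactSupport th ∧ ContDiff ℝ 1 th := by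
    obtain ⟨R, hR⟩ := hB.isBounded.subset_ball (0 : E)
    have hR' : ∃ R' : ℝ, 0 < R' ∧ R ≤ R' := ⟨max R 1, by positivity, le_max_left _ _⟩
    obtain ⟨R', hR'0, hRR'⟩ := hR'
    obtain ⟨φ⟩ : Nonempty (ContDiffBump (0 : E)) := ⟨⟨R', R' + 1, hR'0, by linarith⟩⟩
    let φ : ContDiffBump (0 : E) := ⟨R', R' + 1, hR'0, by linarith⟩
    refine ⟨φ, ?_, φ.hasCompactSupport, φ.contDiff⟩
    have hsub : B ⊆ ball (0 : E) R' := hR.trans (ball_subset_ball hRR')
    refine Filter.mem_of_superset (isOpen_ball.mem_nhdsSet.2 hsub) (fun x hx => ?_)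
    exact φ.one_of_mem_closedBall (ball_subset_closedBall hx)
  have k : ∀ G : E → E, ContDiff ℝ 1 G → ContDiff ℝ 1 (fun x => th x • G x) ∧
      HasCompactSupport (fun x => th x • G x) ∧
      ∀ x ∈ B, fderiv ℝ (fun x => th x • G x) x = fderiv ℝ G x := by
    intro G hG
    refine ⟨hth.smul hG, hthc.smul_right, fun x hx => ?_⟩
    refine Filter.EventuallyEq.fderiv_eq ?_
    have : ∀ᶠ y in 𝓝 x, th y = 1 := hth1.filter_mono (nhds_le_nhdsSet hx)
    filter_upwards [this] with y hy
    rw [hy, one_smul]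
  obtain ⟨a0, b0, e0⟩ := k G₀ h0
  obtain ⟨a1, b1, e1⟩ := k G₁ h1
  obtain ⟨C0, l0⟩ := a0.lipschitzWith_of_hasCompactSupport b0 one_ne_zero
  obtain ⟨C1, l1⟩ := a1.lipschitzWith_of_hasCompactSupport b1 one_ne_zero
  have := setIntegral_det_eq_of_lipschitz μ a0 a1 (C := max C0 C1)
    (l0.weaken (le_max_left _ _)) (l1.weaken (le_max_right _ _)) hB
    (fun x hx => by simp only [hout x hx])
  have E1 : ∫ x in B, (fderiv ℝ (fun x => th x • G₁ x) x).det ∂μ
      = ∫ x in B, (fderiv ℝ G₁ x).det ∂μ :=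
    setIntegral_congr_fun hB.measurableSet (fun x hx => by simp only [e1 x hx])
  have E0 : ∫ x in B, (fderiv ℝ (fun x => th x • G₀ x) x).det ∂μ
      = ∫ x in B, (fderiv ℝ G₀ x).det ∂μ :=
    setIntegral_congr_fun hB.measurableSet (fun x hx => by simp only [e0 x hx])
  rw [← E1, ← E0]
  exact this

end meas

end Pool.Agent.Deg47
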